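import Pool.Agent.MWar.Pair

/-!
The metric form of Waring's problem with one generic multiplier.
-/

set_option autoImplicit false

open MeasureTheory Set Filter Topology
open scoped ENNReal NNReal

namespace Pool.Agent.MWar

/-- approximate representation of `Y` -/
def RepAt (k r t : ℕ) (al ε Y : ℝ) : Prop :=
  ∃ m n : ℕ, IsSum k r m ∧ IsSum k t n ∧ |(m : ℝ) + al * n - Y| < ε

theorem exists_good {B1 B2 : Set ℝ} {V Y lo hi : ℝ} (hV : 0 < V) (hlen : lo + 3 * V ≤ hi)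
    (h1 : volume B1 ≠ ⊤) (h2 : volume B2 ≠ ⊤)
    (h1' : (volume B1).toReal < V) (h2' : (volume B2).toReal < V) :
    ∃ v ∈ Icc lo hi, v ∉ B1 ∧ Y - v ∉ B2 := by
  by_contra hcon
  push Not at hcon
  have hsub : Icc lo hi ⊆ B1 ∪ (fun v => Y - v) ⁻¹' B2 := by
    intro v hv
    by_cases h : v ∈ B1
    · exact Or.inl h
    · exact Or.inr (hcon v hv h)
  have hmp : volume ((fun v => Y - v) ⁻¹' B2) = volume B2 :=
    (Measure.measurePreserving_sub_left volume Y).measure_preimage_emb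
      (MeasurableEquiv.subLeft Y).measurableEmbedding _
  have h3 : volume (Icc lo hi) ≤ volume B1 + volume B2 := by
    calc volume (Icc lo hi) ≤ volume (B1 ∪ (fun v => Y - v) ⁻¹' B2) := measure_mono hsub
      _ ≤ volume B1 + volume ((fun v => Y - v) ⁻¹' B2) := measure_union_le _ _
      _ = volume B1 + volume B2 := by rw [hmp]
  have h4 := ENNReal.toReal_mono (ENNReal.add_ne_top.2 ⟨h1, h2⟩) h3
  rw [ENNReal.toReal_add h1 h2, Real.volume_Icc, ENNReal.toReal_ofReal (by linarith)] at h4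
  linarith

theorem volume_badY_ne_top (A B : Finset ℕ) (e al y1 y2 : ℝ) :
    volume (badY A B e al y1 y2) ≠ ⊤ := by
  have hsub : badY A B e al y1 y2 ⊆ Icc y1 y2 := fun y hy => hy.1
  exact ((measure_mono hsub).trans_lt (by simp)).ne

theorem rep_of_pieces {A1 B1 A2 B2 : Finset ℕ} {k r1 t1 r2 t2 : ℕ}
    (hA1 : ∀ a ∈ A1, IsSum k r1 a) (hB1 : ∀ b ∈ B1, IsSum k t1 b)
    (hA2 : ∀ a ∈ A2, IsSum k r2 a) (hB2 : ∀ b ∈ B2, IsSum k t2 b)
    {e ε al y1 y2 V Y : ℝ} (he : 2 * e < ε) (hV : 0 < V) (hy : y1 + 3 ≤ y2)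
    (h1 : (volume (badY A1 B1 e al (y1 * V) (y2 * V))).toReal < V)
    (h2 : (volume (badY A2 B2 e al (y1 * V) (y2 * V))).toReal < V)
    (hY1 : (2 * y1 + 3) * V ≤ Y) (hY2 : Y ≤ (2 * y2 - 3) * V) :
    RepAt k (r1 + r2) (t1 + t2) al ε Y := by
  obtain ⟨v, hv, hv1, hv2⟩ := exists_good (Y := Y) (lo := max (y1 * V) (Y - y2 * V))
    (hi := min (y2 * V) (Y - y1 * V)) hV
    (by
      have h3 : 3 * V ≤ (y2 - y1) * V := mul_le_mul_of_nonneg_right (by linarith) hV.le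
      refine le_min ?_ ?_
      · rcases le_total (y1 * V) (Y - y2 * V) with h | h
        · rw [max_eq_right h]
          linarith
        · rw [max_eq_left h]
          linarith
      · rcases le_total (y1 * V) (Y - y2 * V) with h | h
        · rw [max_eq_right h]
          linarith
        · rw [max_eq_left h]
          linarith)
    (volume_badY_ne_top _ _ _ _ _ _) (volume_badY_ne_top _ _ _ _ _ _) h1 h2
  have hvI : v ∈ Icc (y1 * V) (y2 * V) :=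
    ⟨(le_max_left _ _).trans hv.1, hv.2.trans (min_le_left _ _)⟩
  have hvI2 : Y - v ∈ Icc (y1 * V) (y2 * V) := by
    have h3 := (le_max_right (y1 * V) (Y - y2 * V)).trans hv.1
    have h4 := hv.2.trans (min_le_right (y2 * V) (Y - y1 * V))
    constructor <;> linarith
  have hg1 : ∃ a ∈ A1, ∃ b ∈ B1, |(a : ℝ) + al * b - v| ≤ e := by
    by_contra h
    push Not at h
    exact hv1 ⟨hvI, h⟩
  have hg2 : ∃ a ∈ A2, ∃ b ∈ B2, |(a : ℝ) + al * b - (Y - v)| ≤ e := by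
    by_contra h
    push Not at h
    exact hv2 ⟨hvI2, h⟩
  obtain ⟨a, ha, b, hb, hab⟩ := hg1
  obtain ⟨a', ha', b', hb', hab'⟩ := hg2
  refine ⟨a + a', b + b', (hA1 a ha).add (hA2 a' ha'), (hB1 b hb).add (hB2 b' hb'), ?_⟩
  push_cast
  have e1 : (a : ℝ) + a' + al * (b + b') - Y =
      ((a : ℝ) + al * b - v) + ((a' : ℝ) + al * b' - (Y - v)) := by ring
  rw [e1]
  exact ((abs_add_le _ _).trans (add_le_add hab hab')).trans_lt (by linarith)

/-- the exceptional multipliers in `[s, u]` for one `ε` -/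
theorem dimH_box {k r1 t1 r2 t2 : ℕ} (hk : 2 ≤ k) (h1 : rho k ^ (r1 + 1) + rho k ^ t1 < 1)
    (h2 : rho k ^ (r2 + 1) + rho k ^ t2 < 1) {s u ε : ℝ} (hs : 0 < s) (hsu : s ≤ u)
    (hε : 0 < ε) :
    dimH {al : ℝ | al ∈ Icc s u ∧ ¬ ∀ᶠ Y : ℝ in atTop,
      RepAt k (r1 + 1 + (r2 + 1)) (t1 + t2) al ε Y} ≤
      max (ENNReal.ofReal (dimB k (r1 + 1) t1)) (ENNReal.ofReal (dimB k (r2 + 1) t2)) := by
  have hu : 0 < u := hs.trans_le hsu
  set e : ℝ := min (ε / 3) (1 / 2) with he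
  have he0 : 0 < e := lt_min (by linarith) (by norm_num)
  have he1 : e < 1 := (min_le_right _ _).trans_lt (by norm_num)
  have he2 : 2 * e < ε := by
    have : e ≤ ε / 3 := min_le_left _ _
    linarith
  set y1 : ℝ := 2 ^ k + u with hy1
  obtain ⟨m, hm⟩ := exists_nat_ge (2 * y1 + 3)
  have h2k : (1 : ℝ) ≤ 2 ^ k := one_le_pow₀ one_le_two
  have hy1pos : 1 ≤ y1 := by linarith
  have hm1 : (1 : ℝ) ≤ m := by linarith
  have hLa : 2 ≤ 2 * m + 1 := by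
    have : 1 ≤ m := by exact_mod_cast hm1
    omega
  set y2 : ℝ := (((2 * m + 1 : ℕ) : ℝ) - 1) ^ k with hy2
  have hy2' : 2 ^ k * (2 * y1 + 3) ≤ y2 := by
    rw [hy2]
    push_cast
    have e1 : (2 * (m : ℝ) + 1 - 1) ^ k = 2 ^ k * (m : ℝ) ^ k := by
      rw [← mul_pow]
      congr 1
      ring
    rw [e1]
    refine mul_le_mul_of_nonneg_left ?_ (by positivity)
    calc 2 * y1 + 3 ≤ m := hm
      _ = (m : ℝ) ^ 1 := (pow_one _).symm
      _ ≤ (m : ℝ) ^ k := pow_le_pow_right₀ hm1 (by omega)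
  have hy2a : 2 * y1 + 3 ≤ y2 := by nlinarith
  obtain ⟨A1, B1, hA1, hB1, hd1⟩ := pair hk h1 hs hsu he0 he1 hLa
  obtain ⟨A2, B2, hA2, hB2, hd2⟩ := pair hk h2 hs hsu he0 he1 hLa
  rw [← hy1, ← hy2] at hd1 hd2
  refine le_trans (le_trans (dimH_mono ?_) (dimH_union _ _).le) (max_le_max hd1 hd2)
  intro al hal
  by_contra hcon
  rw [mem_union, not_or] at hcon
  obtain ⟨hc1, hc2⟩ := hcon
  simp only [mem_ofPred_eq, not_frequently] at hc1 hc2
  obtain ⟨j1, hj1⟩ := eventually_atTop.1 (hc1.and hc2)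
  apply hal.2
  rw [eventually_atTop]
  refine ⟨(2 * y1 + 3) * ((2 : ℝ) ^ j1) ^ k, fun Y hY => ?_⟩
  have hVj1 : (0 : ℝ) < ((2 : ℝ) ^ j1) ^ k := by positivity
  have hy3 : 0 < 2 * y1 + 3 := by linarith
  obtain ⟨n, hn1, hn2⟩ := exists_nat_pow_near (x := Y / ((2 * y1 + 3) * ((2 : ℝ) ^ j1) ^ k))
    (y := (2 : ℝ) ^ k) (by
      rw [le_div_iff₀ (by positivity)]
      linarith) (one_lt_pow₀ one_lt_two (by omega))
  rw [le_div_iff₀ (by positivity)] at hn1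
  rw [div_lt_iff₀ (by positivity)] at hn2
  have hV : ((2 : ℝ) ^ (j1 + n)) ^ k = ((2 : ℝ) ^ k) ^ n * ((2 : ℝ) ^ j1) ^ k := by
    rw [pow_add, mul_pow, ← pow_mul, ← pow_mul, ← pow_mul, mul_comm n k]
    ring
  have hVpos : (0 : ℝ) < ((2 : ℝ) ^ (j1 + n)) ^ k := by positivity
  have hb := hj1 (j1 + n) (by omega)
  have hb1 : (volume (badY (A1 (j1 + n)) (B1 (j1 + n)) e al (y1 * ((2 : ℝ) ^ (j1 + n)) ^ k)
      (y2 * ((2 : ℝ) ^ (j1 + n)) ^ k))).toReal < ((2 : ℝ) ^ (j1 + n)) ^ k := by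
    by_contra h
    exact hb.1 ⟨hal.1, not_lt.1 h⟩
  have hb2 : (volume (badY (A2 (j1 + n)) (B2 (j1 + n)) e al (y1 * ((2 : ℝ) ^ (j1 + n)) ^ k)
      (y2 * ((2 : ℝ) ^ (j1 + n)) ^ k))).toReal < ((2 : ℝ) ^ (j1 + n)) ^ k := by
    by_contra h
    exact hb.2 ⟨hal.1, not_lt.1 h⟩
  refine rep_of_pieces (hA1 _) (hB1 _) (hA2 _) (hB2 _) he2 hVpos (by linarith) hb1 hb2 ?_ ?_
  · rw [hV]
    linarith
  · have h5 : Y ≤ 2 ^ k * (2 * y1 + 3) * ((2 : ℝ) ^ (j1 + n)) ^ k := by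
      rw [hV]
      refine hn2.le.trans (le_of_eq ?_)
      rw [pow_succ]
      ring
    refine h5.trans (mul_le_mul_of_nonneg_right ?_ hVpos.le)
    linarith

theorem RepAt.mono {k r t : ℕ} {al ε ε' Y : ℝ} (h : ε ≤ ε') (hR : RepAt k r t al ε Y) :
    RepAt k r t al ε' Y := by
  obtain ⟨m, n, h1, h2, h3⟩ := hR
  exact ⟨m, n, h1, h2, h3.trans_le h⟩

/-- the exceptional set -/
theorem dimH_exc {k r t : ℕ} (hk : 2 ≤ k) (hrt : rho k ^ (r / 2) + rho k ^ (t / 2) < 1) :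
    dimH {al : ℝ | 0 < al ∧ ¬ ∀ ε : ℝ, 0 < ε → ∀ᶠ Y : ℝ in atTop, RepAt k r t al ε Y} ≤
      ENNReal.ofReal (dimB k (r / 2) (t / 2)) := by
  have hr0 : 1 ≤ r / 2 := by
    by_contra h
    have h1 : r / 2 = 0 := by omega
    rw [h1, pow_zero] at hrt
    linarith [rho_pow_nonneg hk (t / 2)]
  obtain ⟨r1, hr1⟩ : ∃ r1, r / 2 = r1 + 1 := ⟨r / 2 - 1, by omega⟩
  obtain ⟨r2, hr2⟩ : ∃ r2, r - r / 2 = r2 + 1 := ⟨r - r / 2 - 1, by omega⟩
  have hr12 : r1 + 1 + (r2 + 1) = r := by omega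
  have ht12 : t / 2 + (t - t / 2) = t := by omega
  have hpr : rho k ^ (r2 + 1) ≤ rho k ^ (r1 + 1) :=
    pow_le_pow_of_le_one (rho_nonneg hk) (rho_lt_one hk).le (by omega)
  have hpt : rho k ^ (t - t / 2) ≤ rho k ^ (t / 2) :=
    pow_le_pow_of_le_one (rho_nonneg hk) (rho_lt_one hk).le (by omega)
  rw [hr1] at hrt ⊢
  have h2 : rho k ^ (r2 + 1) + rho k ^ (t - t / 2) < 1 := by linarith
  have hsub : {al : ℝ | 0 < al ∧ ¬ ∀ ε : ℝ, 0 < ε → ∀ᶠ Y : ℝ in atTop, RepAt k r t al ε Y} ⊆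
      ⋃ p : ℕ × ℕ, {al : ℝ | al ∈ Icc (1 / ((p.1 : ℝ) + 1)) ((p.1 : ℝ) + 1) ∧
        ¬ ∀ᶠ Y : ℝ in atTop, RepAt k r t al (1 / ((p.2 : ℝ) + 1)) Y} := by
    intro al hal
    obtain ⟨h3, h4⟩ := hal
    push Not at h4
    obtain ⟨ε, hε, h5⟩ := h4
    obtain ⟨i, hi⟩ := exists_nat_one_div_lt hε
    obtain ⟨n1, hn1⟩ := exists_nat_one_div_lt h3
    obtain ⟨n2, hn2⟩ := exists_nat_gt al
    rw [mem_iUnion]
    refine ⟨(max n1 n2, i), ⟨?_, ?_⟩, ?_⟩
    · refine le_trans ?_ hn1.le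
      have : (n1 : ℝ) ≤ ((max n1 n2 : ℕ) : ℝ) := by exact_mod_cast le_max_left _ _
      exact one_div_le_one_div_of_le (by positivity) (by linarith)
    · have : (n2 : ℝ) ≤ ((max n1 n2 : ℕ) : ℝ) := by exact_mod_cast le_max_right _ _
      simp only []
      linarith
    · intro h
      exact h5 (h.mono fun Y hY => not_not.2 (hY.mono hi.le))
  refine (dimH_mono hsub).trans ?_
  rw [dimH_iUnion]
  refine iSup_le fun p => ?_
  have hp : (0 : ℝ) < (p.1 : ℝ) + 1 := by positivity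
  have h6 := dimH_box (k := k) (r1 := r1) (t1 := t / 2) (r2 := r2) (t2 := t - t / 2) hk hrt h2
    (s := 1 / ((p.1 : ℝ) + 1)) (u := (p.1 : ℝ) + 1) (ε := 1 / ((p.2 : ℝ) + 1)) (by positivity)
    (by
      rw [div_le_iff₀ hp]
      have : (0 : ℝ) ≤ p.1 := Nat.cast_nonneg _
      nlinarith) (by positivity)
  rw [hr12, ht12] at h6
  refine h6.trans (max_le le_rfl (ENNReal.ofReal_le_ofReal ?_))
  unfold dimB
  exact max_le_max (by linarith) le_rfl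

/-- floor form -/
theorem floor_of_rep {k r t : ℕ} {al : ℝ} (hal : 0 < al)
    (h : ∀ᶠ Y : ℝ in atTop, RepAt k r t al (1 / 2) Y) :
    ∀ᶠ N : ℕ in atTop, ∃ m n : ℕ, IsSum k r m ∧ IsSum k t n ∧ m + ⌊al * n⌋₊ = N := by
  have h1 : Tendsto (fun N : ℕ => (N : ℝ) + 1 / 2) atTop atTop :=
    tendsto_atTop_add_const_right _ _ tendsto_natCast_atTop_atTop
  filter_upwards [h1.eventually h] with N hN
  obtain ⟨m, n, hm, hn, h2⟩ := hN
  refine ⟨m, n, hm, hn, ?_⟩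
  rw [abs_lt] at h2
  have h3 : (N : ℝ) < m + al * n := by linarith [h2.1]
  have h4 : (m : ℝ) + al * n < N + 1 := by linarith [h2.2]
  have h5 : (0 : ℝ) ≤ al * n := by positivity
  have h6 : ⌊(m : ℝ) + al * n⌋₊ = N := by
    rw [Nat.floor_eq_iff (by positivity)]
    exact ⟨h3.le, h4⟩
  rw [← h6, add_comm (m : ℝ), Nat.floor_add_natCast h5, add_comm]

end Pool.Agent.MWar
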