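import Mathlib

/-!
Hausdorff dimension of a limsup set covered by few short intervals at every level, and a covering
lemma from an integral bound.
-/

set_option autoImplicit false

open MeasureTheory Set Filter Topology
open scoped ENNReal NNReal

namespace Pool.Agent.MWar

theorem tsum_mem_const (T : Finset ℕ) (c : ℝ≥0∞) :
    ∑' i : ℕ, (if i ∈ T then c else 0) = T.card * c := by
  rw [tsum_eq_sum (s := T)]
  · rw [Finset.sum_ite_mem, Finset.inter_self, Finset.sum_const, nsmul_eq_mul]
  · intro i hi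
    rw [if_neg hi]

theorem dimH_limsup_le {E : ℕ → Set ℝ} {T : ℕ → Finset ℕ} {a : ℕ → ℕ → ℝ} {l : ℕ → ℝ} {j0 : ℕ}
    (hl : Antitone l) (hl0 : Tendsto l atTop (𝓝 0))
    (hcov : ∀ j, j0 ≤ j → E j ⊆ ⋃ i ∈ T j, Icc (a j i) (a j i + l j)) {d : ℝ≥0} (hd : 0 < d)
    (hsum : ∑' j, (T j).card * ENNReal.ofReal (l j) ^ (d : ℝ) ≠ ⊤) :
    dimH {x | ∃ᶠ j in atTop, x ∈ E j} ≤ d := by
  apply dimH_le_of_hausdorffMeasure_ne_top
  set t : ∀ _ : ℕ, ℕ × ℕ → Set ℝ := fun n p =>
    if p.2 ∈ T (p.1 + n) then Icc (a (p.1 + n) p.2) (a (p.1 + n) p.2 + l (p.1 + n)) else ∅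
    with ht
  have hdr : (0 : ℝ) < d := hd
  have hdiam : ∀ n p, Metric.ediam (t n p) =
      if p.2 ∈ T (p.1 + n) then ENNReal.ofReal (l (p.1 + n)) else 0 := by
    intro n p
    simp only [ht]
    split_ifs with h
    · rw [Real.ediam_Icc]
      congr 1
      ring
    · exact Metric.ediam_empty
  have h1 := Measure.hausdorffMeasure_le_liminf_tsum (d : ℝ) {x | ∃ᶠ j in atTop, x ∈ E j}
    (l := atTop) (fun n : ℕ => ENNReal.ofReal (l n))
    (by
      have := ENNReal.tendsto_ofReal hl0
      rwa [ENNReal.ofReal_zero] at this) t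
    (Eventually.of_forall fun n p => by
      rw [hdiam]
      split_ifs with h
      · exact ENNReal.ofReal_le_ofReal (hl (by omega))
      · exact zero_le)
    (by
      filter_upwards [eventually_ge_atTop j0] with n hn
      intro x hx
      obtain ⟨j, hj1, hj2⟩ := (frequently_atTop.1 hx) n
      have h2 := hcov j (hn.trans hj1) hj2
      rw [mem_iUnion₂] at h2
      obtain ⟨i, hi, hxi⟩ := h2
      rw [mem_iUnion]
      refine ⟨(j - n, i), ?_⟩
      have e1 : j - n + n = j := by omega
      simp only [ht, e1]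
      rw [if_pos hi]
      exact hxi)
  have h2 : ∀ n, ∑' p, Metric.ediam (t n p) ^ (d : ℝ) =
      ∑' j, (T (j + n)).card * ENNReal.ofReal (l (j + n)) ^ (d : ℝ) := by
    intro n
    have e1 : ∀ p : ℕ × ℕ, Metric.ediam (t n p) ^ (d : ℝ) =
        (fun j i => if i ∈ T (j + n) then ENNReal.ofReal (l (j + n)) ^ (d : ℝ) else 0) p.1 p.2 := by
      intro p
      rw [hdiam]
      simp only []
      split_ifs with h
      · rfl
      · exact ENNReal.zero_rpow_of_pos hdr
    rw [tsum_congr e1]
    rw [ENNReal.tsum_prod (f := fun j i =>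
      if i ∈ T (j + n) then ENNReal.ofReal (l (j + n)) ^ (d : ℝ) else 0)]
    exact tsum_congr fun j => tsum_mem_const _ _
  simp only [h2] at h1
  have h3 := ENNReal.tendsto_sum_nat_add
    (fun j => ((T j).card : ℝ≥0∞) * ENNReal.ofReal (l j) ^ (d : ℝ)) hsum
  rw [h3.liminf_eq] at h1
  exact ne_top_of_le_ne_top ENNReal.zero_ne_top h1

/-- few intervals of length `l` cover a set all of whose `l`-neighbourhood carries a large value -/
theorem cover {s u V l I : ℝ} (hV : 0 < V) (hl : 0 < l) (hsu : s ≤ u) {W : ℝ → ℝ}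
    (hW : IntervalIntegrable W volume s u) (hW0 : ∀ x, 0 ≤ W x) (hI : ∫ x in s..u, W x ≤ I)
    {E : Set ℝ} (hE : E ⊆ Icc s u)
    (hEW : ∀ x ∈ E, ∀ y ∈ Icc s u, |y - x| ≤ l → V ≤ W y) :
    ∃ T : Finset ℕ, (T.card : ℝ) ≤ I / (V * l) + 1 ∧
      E ⊆ ⋃ i ∈ T, Icc (s + i * l) (s + i * l + l) := by
  classical
  set n : ℕ := ⌊(u - s) / l⌋₊ with hn
  set T : Finset ℕ := (Finset.range (n + 1)).filter fun i =>
    (E ∩ Icc (s + i * l) (s + i * l + l)).Nonempty with hT
  refine ⟨T, ?_, ?_⟩
  · set T' : Finset ℕ := T.filter fun i => i < n with hT'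
    have hn1 : (n : ℝ) * l ≤ u - s := by
      have : (n : ℝ) ≤ (u - s) / l := Nat.floor_le (div_nonneg (by linarith) hl.le)
      rwa [le_div_iff₀ hl] at this
    have hsub : ∀ i ∈ T', Ioc (s + i * l) (s + i * l + l) ⊆ Ioc s u := by
      intro i hi x hx
      rw [hT', Finset.mem_filter] at hi
      have h1 : (i : ℝ) + 1 ≤ n := by exact_mod_cast hi.2
      have h2 : (0 : ℝ) ≤ i := Nat.cast_nonneg _
      constructor
      · have := hx.1
        nlinarith
      · have := hx.2
        nlinarith
    have hbig : ∀ i ∈ T', ∀ y ∈ Ioc (s + i * l) (s + i * l + l), V ≤ W y := by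
      intro i hi y hy
      have hi' := hi
      rw [hT', Finset.mem_filter, hT, Finset.mem_filter] at hi'
      obtain ⟨x, hx1, hx2⟩ := hi'.1.2
      refine hEW x hx1 y (Ioc_subset_Icc_self (hsub i hi hy)) ?_
      rw [abs_le]
      constructor <;> linarith [hx2.1, hx2.2, hy.1, hy.2]
    have hdisj : (T' : Set ℕ).PairwiseDisjoint fun i : ℕ => Ioc (s + i * l) (s + i * l + l) := by
      intro i hi j hj hij
      rw [Function.onFun, Set.disjoint_left]
      intro x hx hx'
      rcases lt_or_gt_of_ne hij with h | h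
      · have : (i : ℝ) + 1 ≤ j := by exact_mod_cast h
        have h3 := hx.2
        have h4 := hx'.1
        nlinarith
      · have : (j : ℝ) + 1 ≤ i := by exact_mod_cast h
        have h3 := hx.1
        have h4 := hx'.2
        nlinarith
    have hint : ∀ i ∈ T', IntegrableOn W (Ioc (s + i * l) (s + i * l + l)) := fun i hi =>
      ((intervalIntegrable_iff_integrableOn_Ioc_of_le hsu).1 hW).mono_set (hsub i hi)
    have h5 : (T'.card : ℝ) * (V * l) ≤ I := by
      have h6 : ∀ i ∈ T', V * l ≤ ∫ y in Ioc (s + i * l) (s + i * l + l), W y := by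
        intro i hi
        have h7 : ∫ _ in Ioc (s + i * l) (s + i * l + l), V ≤
            ∫ y in Ioc (s + i * l) (s + i * l + l), W y :=
          setIntegral_mono_on (integrableOn_const (by simp)) (hint i hi) measurableSet_Ioc
            (hbig i hi)
        rw [setIntegral_const, measureReal_def, Real.volume_Ioc, smul_eq_mul] at h7
        have e1 : s + i * l + l - (s + i * l) = l := by ring
        rw [e1, ENNReal.toReal_ofReal hl.le] at h7
        linarith
      have h8 := Finset.card_nsmul_le_sum T' _ _ h6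
      rw [nsmul_eq_mul] at h8
      have h9 : ∑ i ∈ T', ∫ y in Ioc (s + i * l) (s + i * l + l), W y =
          ∫ y in ⋃ i ∈ T', Ioc (s + i * l) (s + i * l + l), W y := by
        rw [integral_biUnion_finset T' (fun i _ => measurableSet_Ioc) hdisj hint]
      rw [h9] at h8
      have h10 : ∫ y in ⋃ i ∈ T', Ioc (s + i * l) (s + i * l + l), W y ≤
          ∫ y in Ioc s u, W y := by
        refine setIntegral_mono_set
          ((intervalIntegrable_iff_integrableOn_Ioc_of_le hsu).1 hW)
          (Eventually.of_forall hW0) ?_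
        exact HasSubset.Subset.eventuallyLE (iUnion₂_subset hsub)
      rw [← intervalIntegral.integral_of_le hsu] at h10
      linarith
    have h11 : T.card ≤ T'.card + 1 := by
      have h12 : T ⊆ insert n T' := by
        intro i hi
        rw [Finset.mem_insert, hT', Finset.mem_filter]
        by_cases h : i < n
        · exact Or.inr ⟨hi, h⟩
        · rw [hT, Finset.mem_filter, Finset.mem_range] at hi
          left
          omega
      exact (Finset.card_le_card h12).trans (Finset.card_insert_le _ _)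
    have h13 : (T.card : ℝ) ≤ T'.card + 1 := by exact_mod_cast h11
    have h14 : (T'.card : ℝ) ≤ I / (V * l) := by
      rw [le_div_iff₀ (by positivity)]
      exact h5
    linarith
  · intro x hx
    have hxs := hE hx
    have h0 : 0 ≤ (x - s) / l := div_nonneg (by linarith [hxs.1]) hl.le
    set i : ℕ := ⌊(x - s) / l⌋₊ with hi
    have h1 : (i : ℝ) * l ≤ x - s := by
      have : (i : ℝ) ≤ (x - s) / l := Nat.floor_le h0
      rwa [le_div_iff₀ hl] at this
    have h2 : x - s ≤ ((i : ℝ) + 1) * l := by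
      have : (x - s) / l < i + 1 := Nat.lt_floor_add_one _
      rw [div_lt_iff₀ hl] at this
      exact this.le
    have h3 : x ∈ Icc (s + i * l) (s + i * l + l) := ⟨by linarith, by linarith⟩
    rw [mem_iUnion₂]
    refine ⟨i, ?_, h3⟩
    rw [hT, Finset.mem_filter, Finset.mem_range, Nat.lt_succ_iff]
    refine ⟨Nat.floor_le_floor ?_, ⟨x, hx, h3⟩⟩
    exact div_le_div_of_nonneg_right (by linarith [hxs.2]) hl.le

end Pool.Agent.MWar
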