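import Pool.Agent.MWar.Sep

/-!
The regular set `x ^ k + a'`, `X <= x < La * X`, with `a'` in a set of small numbers.
-/

set_option autoImplicit false

open Finset

namespace Pool.Agent.MWar

/-- numbers `x ^ k + a'` -/
def regSet (k X La : ℕ) (A' : Finset ℕ) : Finset ℕ :=
  ((Finset.Ico X (La * X)) ×ˢ A').image fun q : ℕ × ℕ => q.1 ^ k + q.2

theorem regSet_inj {k X La : ℕ} {A' : Finset ℕ} (hk : 1 ≤ k) (hX : 1 ≤ X)
    (hA' : ∀ a ∈ A', (a : ℝ) ≤ (X : ℝ) ^ (k - 1) / 2) :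
    Set.InjOn (fun q : ℕ × ℕ => q.1 ^ k + q.2) ((Finset.Ico X (La * X)) ×ˢ A' : Finset (ℕ × ℕ)) := by
  have hXp : (0 : ℝ) < (X : ℝ) ^ (k - 1) / 2 := by
    have : (0 : ℝ) < X := by exact_mod_cast hX
    positivity
  have hkey : ∀ q ∈ (Finset.Ico X (La * X)) ×ˢ A', ∀ q' ∈ (Finset.Ico X (La * X)) ×ˢ A',
      q.1 < q'.1 → q.1 ^ k + q.2 ≠ q'.1 ^ k + q'.2 := by
    intro q hq q' hq' hlt heq
    rw [mem_product, mem_Ico] at hq hq'
    have := piece_gap (b' := q'.2) hk hq.1.1 hlt (hA' _ hq.2)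
    rw [heq, sub_self] at this
    linarith
  intro q hq q' hq' heq
  rw [mem_coe] at hq hq'
  rcases lt_trichotomy q.1 q'.1 with h1 | h1 | h1
  · exact absurd heq (hkey q hq q' hq' h1)
  · ext
    · exact h1
    · simp only [] at heq
      rw [h1] at heq
      omega
  · exact absurd heq.symm (hkey q' hq' q hq h1)

theorem regSet_card {k X La : ℕ} {A' : Finset ℕ} (hk : 1 ≤ k) (hX : 1 ≤ X) (hLa : 1 ≤ La)
    (hA' : ∀ a ∈ A', (a : ℝ) ≤ (X : ℝ) ^ (k - 1) / 2) :
    ((regSet k X La A').card : ℝ) = ((La : ℝ) - 1) * X * A'.card := by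
  unfold regSet
  rw [card_image_of_injOn (regSet_inj hk hX hA'), card_product, Nat.card_Ico]
  push_cast
  rw [Nat.cast_sub (by nlinarith)]
  push_cast
  ring

theorem regSet_isSum {k X La r : ℕ} {A' : Finset ℕ} (hX : 1 ≤ X) (hA' : ∀ a ∈ A', IsSum k r a)
    {a : ℕ} (ha : a ∈ regSet k X La A') : IsSum k (r + 1) a := by
  obtain ⟨q, hq, rfl⟩ := mem_image.1 ha
  rw [mem_product, mem_Ico] at hq
  exact (hA' _ hq.2).cons (by omega)

/-- a separated finite family in an interval is small -/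
theorem card_sep_le {S : Finset ℕ} {f : ℕ → ℝ} {u W sg : ℝ} (hsg : 0 < sg) (hW : 0 ≤ W)
    (hf : ∀ x ∈ S, u ≤ f x ∧ f x ≤ u + W)
    (hs : ∀ x ∈ S, ∀ y ∈ S, x < y → sg ≤ f y - f x) : (S.card : ℝ) ≤ W / sg + 1 := by
  set g : ℕ → ℕ := fun x => ⌊(f x - u) / sg⌋₊ with hg
  have hlt : ∀ x ∈ S, ∀ y ∈ S, x < y → g x < g y := by
    intro x hx y hy hxy
    have h1 := hs x hx y hy hxy
    have h2 : (f x - u) / sg + 1 ≤ (f y - u) / sg := by
      rw [div_add_one hsg.ne', div_le_div_iff_of_pos_right hsg]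
      linarith
    have h3 : 0 ≤ (f x - u) / sg := div_nonneg (by linarith [(hf x hx).1]) hsg.le
    have h4 : ⌊(f x - u) / sg + 1⌋₊ ≤ ⌊(f y - u) / sg⌋₊ := Nat.floor_le_floor h2
    rw [Nat.floor_add_one h3] at h4
    simp only [hg]
    omega
  have hinj : Set.InjOn g S := by
    intro x hx y hy hxy
    rcases lt_trichotomy x y with h | h | h
    · have := hlt x hx y hy h
      omega
    · exact h
    · have := hlt y hy x hx h
      omega
  have hsub : S.image g ⊆ Finset.range (⌊W / sg⌋₊ + 1) := by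
    intro i hi
    obtain ⟨x, hx, rfl⟩ := mem_image.1 hi
    rw [mem_range, Nat.lt_succ_iff]
    refine Nat.floor_le_floor ?_
    refine div_le_div_of_nonneg_right ?_ hsg.le
    linarith [(hf x hx).2]
  have h5 := card_le_card hsub
  rw [card_image_of_injOn hinj, card_range] at h5
  have h6 : (S.card : ℝ) ≤ (⌊W / sg⌋₊ : ℝ) + 1 := by exact_mod_cast h5
  have h7 : (⌊W / sg⌋₊ : ℝ) ≤ W / sg := Nat.floor_le (by positivity)
  linarith

theorem regSet_upper {k X La : ℕ} {A' : Finset ℕ} {H : ℝ} (hk : 1 ≤ k) (hX : 1 ≤ X)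
    (hA' : ∀ a ∈ A', (a : ℝ) ≤ (X : ℝ) ^ (k - 1) / 2) (hH : (X : ℝ) ^ (k - 1) ≤ H) (z : ℝ) :
    (((regSet k X La A').filter fun a : ℕ => |(a : ℝ) - z| ≤ 2 * H).card : ℝ) ≤
      6 * H * A'.card / (X : ℝ) ^ (k - 1) := by
  have hXp : (0 : ℝ) < (X : ℝ) ^ (k - 1) := by
    have : (0 : ℝ) < X := by exact_mod_cast hX
    positivity
  set T : ℝ := 2 * H + (X : ℝ) ^ (k - 1) / 2 with hT
  set S : Finset ℕ := (Finset.Ico X (La * X)).filter fun x : ℕ => |((x : ℝ)) ^ k - z| ≤ T with hS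
  have hsub : (regSet k X La A').filter (fun a : ℕ => |(a : ℝ) - z| ≤ 2 * H) ⊆
      (S ×ˢ A').image fun q : ℕ × ℕ => q.1 ^ k + q.2 := by
    intro a ha
    rw [mem_filter] at ha
    obtain ⟨q, hq, rfl⟩ := mem_image.1 ha.1
    rw [mem_product] at hq
    refine mem_image.2 ⟨q, ?_, rfl⟩
    rw [mem_product, hS, mem_filter]
    refine ⟨⟨hq.1, ?_⟩, hq.2⟩
    have h1 := hA' _ hq.2
    have h2 := abs_le.1 ha.2
    push_cast at h2
    have h3 : (0 : ℝ) ≤ q.2 := Nat.cast_nonneg _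
    rw [abs_le]
    constructor <;> linarith [h2.1, h2.2]
  have h1 : (((regSet k X La A').filter fun a : ℕ => |(a : ℝ) - z| ≤ 2 * H).card : ℝ) ≤
      S.card * A'.card := by
    have h2 := (card_le_card hsub).trans card_image_le
    rw [card_product] at h2
    exact_mod_cast h2
  have h3 : (S.card : ℝ) ≤ 2 * T / (X : ℝ) ^ (k - 1) + 1 := by
    refine card_sep_le (f := fun x => (x : ℝ) ^ k) (u := z - T) hXp ?_ (fun x hx => ?_)
      fun x hx y hy hxy => ?_
    · have : 0 ≤ H := hXp.le.trans hH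
      positivity
    · rw [hS, mem_filter] at hx
      have := abs_le.1 hx.2
      constructor <;> linarith [this.1, this.2]
    · rw [hS, mem_filter, mem_Ico] at hx hy
      have h4 := pow_gap hk hx.1.1 hxy
      have h5 : ((x : ℝ)) ^ k + (X : ℝ) ^ (k - 1) ≤ (y : ℝ) ^ k := by exact_mod_cast h4
      linarith
  have h4 : 2 * T / (X : ℝ) ^ (k - 1) + 1 ≤ 6 * H / (X : ℝ) ^ (k - 1) := by
    rw [div_add_one hXp.ne', div_le_div_iff_of_pos_right hXp, hT]
    linarith
  calc _ ≤ (S.card : ℝ) * A'.card := h1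
    _ ≤ 6 * H / (X : ℝ) ^ (k - 1) * A'.card :=
      mul_le_mul_of_nonneg_right (h3.trans h4) (Nat.cast_nonneg _)
    _ = _ := by ring

theorem pow_diff_le {u v : ℝ} (hu : 0 ≤ u) (huv : u ≤ v) (k : ℕ) :
    v ^ k ≤ u ^ k + (v - u) * (k * v ^ (k - 1)) := by
  induction k with
  | zero => simp
  | succ k ih =>
    have hv : 0 ≤ v := hu.trans huv
    rcases Nat.eq_zero_or_pos k with h | h
    · subst h
      simp
    · obtain ⟨m, rfl⟩ : ∃ m, k = m + 1 := ⟨k - 1, by omega⟩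
      simp only [Nat.add_sub_cancel] at ih ⊢
      have h1 : u ^ (m + 1) ≤ v ^ (m + 1) := pow_le_pow_left₀ hu huv _
      have h2 := mul_le_mul_of_nonneg_left ih hv
      have h3 : 0 ≤ (v - u) * (v ^ (m + 1) - u ^ (m + 1)) :=
        mul_nonneg (by linarith) (by linarith)
      have e1 : v ^ (m + 1 + 1) = v * v ^ (m + 1) := by ring
      have e2 : v * (u ^ (m + 1) + (v - u) * (((m + 1 : ℕ) : ℝ) * v ^ m)) =
          u ^ (m + 1 + 1) + (v - u) * u ^ (m + 1) +
            (v - u) * (((m + 1 : ℕ) : ℝ) * v ^ (m + 1)) := by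
        ring
      rw [e2] at h2
      rw [e1]
      push_cast at h2 ⊢
      nlinarith

theorem regSet_lower {k X La : ℕ} {A' : Finset ℕ} {H : ℝ} (hk : 1 ≤ k) (hX : 1 ≤ X) (hLa : 2 ≤ La)
    (hA' : ∀ a ∈ A', (a : ℝ) ≤ (X : ℝ) ^ (k - 1) / 2)
    (hH1 : (k : ℝ) * ((La : ℝ) * X) ^ (k - 1) ≤ H) (hH2 : H ≤ (X : ℝ) ^ k) {z : ℝ}
    (hz1 : (2 * (X : ℝ)) ^ k ≤ z) (hz2 : z ≤ (((La : ℝ) - 1) * X) ^ k) :
    H * A'.card / (2 * (k * ((La : ℝ) * X) ^ (k - 1))) ≤
      (((regSet k X La A').filter fun a : ℕ => |(a : ℝ) - z| < H).card : ℝ) := by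
  have hXr : (1 : ℝ) ≤ X := by exact_mod_cast hX
  have hLar : (2 : ℝ) ≤ La := by exact_mod_cast hLa
  have hkr : (1 : ℝ) ≤ k := by exact_mod_cast hk
  have hk0 : k ≠ 0 := by omega
  have hz0 : 0 ≤ z := le_trans (by positivity) hz1
  set V : ℝ := (k : ℝ) * ((La : ℝ) * X) ^ (k - 1) with hV
  have hV1 : (X : ℝ) ^ (k - 1) ≤ V := by
    have h1 : (X : ℝ) ^ (k - 1) ≤ ((La : ℝ) * X) ^ (k - 1) :=
      pow_le_pow_left₀ (by linarith) (by nlinarith) _
    have h2 : (0 : ℝ) ≤ ((La : ℝ) * X) ^ (k - 1) := by positivity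
    rw [hV]
    nlinarith
  have hXk1 : (1 : ℝ) ≤ (X : ℝ) ^ (k - 1) := one_le_pow₀ hXr
  have hVpos : 0 < V := by linarith
  -- the largest x0 with x0 ^ k <= z
  obtain ⟨x0, hx1, hx2⟩ : ∃ x0 : ℕ, (x0 : ℝ) ^ k ≤ z ∧ z < ((x0 : ℝ) + 1) ^ k := by
    have hex : ∃ n : ℕ, z < ((n : ℝ)) ^ k := by
      obtain ⟨n, hn⟩ := exists_nat_gt z
      refine ⟨n, hn.trans_le ?_⟩
      have hn1 : (1 : ℝ) ≤ n := by
        have : 0 < n := by
          rcases Nat.eq_zero_or_pos n with h | h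
          · subst h
            simp at hn
            linarith
          · exact h
        exact_mod_cast this
      calc (n : ℝ) = (n : ℝ) ^ 1 := (pow_one _).symm
        _ ≤ (n : ℝ) ^ k := pow_le_pow_right₀ hn1 hk
    classical
    have h1 := Nat.find_spec hex
    have h2 : Nat.find hex ≠ 0 := by
      intro h
      rw [h] at h1
      simp [hk0] at h1
      linarith
    obtain ⟨m, hm⟩ : ∃ m, Nat.find hex = m + 1 := ⟨Nat.find hex - 1, by omega⟩
    refine ⟨m, ?_, ?_⟩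
    · have := Nat.find_min hex (m := m) (by omega)
      exact not_lt.1 this
    · rw [hm] at h1
      exact_mod_cast h1
  have hx3 : 2 * X ≤ x0 := by
    by_contra h
    have h1 : x0 + 1 ≤ 2 * X := by omega
    have h2 : ((x0 : ℝ) + 1) ^ k ≤ (2 * (X : ℝ)) ^ k := by
      refine pow_le_pow_left₀ (by positivity) ?_ k
      exact_mod_cast h1
    linarith
  have hx4 : (x0 : ℝ) ≤ ((La : ℝ) - 1) * X := by
    by_contra h
    have h1 : ((La : ℝ) - 1) * X < x0 := not_le.1 h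
    have h2 : (((La : ℝ) - 1) * X) ^ k < (x0 : ℝ) ^ k :=
      pow_lt_pow_left₀ h1 (mul_nonneg (by linarith) (by linarith)) hk0
    linarith
  have hx5 : (x0 : ℝ) + 1 ≤ (La : ℝ) * X := by nlinarith
  set J : ℕ := ⌊H / V⌋₊ with hJ
  have hHV : 1 ≤ H / V := by
    rw [le_div_iff₀ hVpos]
    linarith
  have hJ1 : (J : ℝ) ≤ H / V := Nat.floor_le (by linarith)
  have hJ2 : H / V / 2 ≤ J := by
    have h1 : H / V < J + 1 := Nat.lt_floor_add_one _
    have h2 : (1 : ℝ) ≤ J := by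
      have : 1 ≤ J := by
        rw [hJ, Nat.le_floor_iff (by linarith)]
        simpa using hHV
      exact_mod_cast this
    linarith
  have hJX : J ≤ X := by
    have h1 : (J : ℝ) ≤ X := by
      refine hJ1.trans ?_
      rw [div_le_iff₀ hVpos]
      calc H ≤ (X : ℝ) ^ k := hH2
        _ = X * (X : ℝ) ^ (k - 1) := by
          rw [← pow_succ']
          congr 1
          omega
        _ ≤ X * V := mul_le_mul_of_nonneg_left hV1 (by linarith)
    exact_mod_cast h1
  have hcard : J * A'.card ≤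
      ((regSet k X La A').filter fun a : ℕ => |(a : ℝ) - z| < H).card := by
    have h1 : (Finset.range J ×ˢ A').card = J * A'.card := by
      rw [card_product, card_range]
    rw [← h1]
    refine Finset.card_le_card_of_injOn (fun q : ℕ × ℕ => (x0 - q.1) ^ k + q.2) ?_ ?_
    · intro q hq
      rw [mem_coe, mem_product, mem_range] at hq
      have hq1 : X ≤ x0 - q.1 := by omega
      have hq2 : x0 - q.1 < La * X := by
        have : x0 + 1 ≤ La * X := by exact_mod_cast hx5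
        omega
      rw [mem_coe, mem_filter]
      refine ⟨mem_image.2 ⟨(x0 - q.1, q.2), ?_, rfl⟩, ?_⟩
      · rw [mem_product, mem_Ico]
        exact ⟨⟨hq1, hq2⟩, hq.2⟩
      · have hcast : ((x0 - q.1 : ℕ) : ℝ) = (x0 : ℝ) - q.1 := by
          rw [Nat.cast_sub (by omega)]
        push_cast
        rw [hcast]
        have hq0 : (0 : ℝ) ≤ q.1 := Nat.cast_nonneg _
        have hqJ : (q.1 : ℝ) + 1 ≤ J := by exact_mod_cast hq.1
        have hxq : (0 : ℝ) ≤ (x0 : ℝ) - q.1 := by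
          rw [← hcast]
          exact Nat.cast_nonneg _
        have h2 := pow_diff_le hxq (by linarith : (x0 : ℝ) - q.1 ≤ (x0 : ℝ) + 1) k
        have h3 : ((x0 : ℝ) + 1 - ((x0 : ℝ) - q.1)) * (k * ((x0 : ℝ) + 1) ^ (k - 1)) ≤
            J * V := by
          refine mul_le_mul (by linarith) ?_ (by positivity) (by positivity)
          rw [hV]
          refine mul_le_mul_of_nonneg_left ?_ (by positivity)
          exact pow_le_pow_left₀ (by positivity) hx5 _
        have h4 : (J : ℝ) * V ≤ H := by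
          rwa [le_div_iff₀ hVpos] at hJ1
        have h5 : ((x0 : ℝ) - q.1) ^ k ≤ (x0 : ℝ) ^ k := pow_le_pow_left₀ hxq (by linarith) k
        have h6 := hA' _ hq.2
        have h7 : (0 : ℝ) ≤ q.2 := Nat.cast_nonneg _
        rw [abs_lt]
        constructor
        · linarith
        · linarith
    · intro q hq q' hq' heq
      rw [mem_coe, mem_product, mem_range] at hq hq'
      have hx5' : x0 + 1 ≤ La * X := by exact_mod_cast hx5
      have m1 : (x0 - q.1, q.2) ∈
          (((Finset.Ico X (La * X)) ×ˢ A' : Finset (ℕ × ℕ)) : Set (ℕ × ℕ)) := by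
        rw [mem_coe, mem_product, mem_Ico]
        refine ⟨⟨?_, ?_⟩, hq.2⟩
        · show X ≤ x0 - q.1
          omega
        · show x0 - q.1 < La * X
          omega
      have m2 : (x0 - q'.1, q'.2) ∈
          (((Finset.Ico X (La * X)) ×ˢ A' : Finset (ℕ × ℕ)) : Set (ℕ × ℕ)) := by
        rw [mem_coe, mem_product, mem_Ico]
        refine ⟨⟨?_, ?_⟩, hq'.2⟩
        · show X ≤ x0 - q'.1
          omega
        · show x0 - q'.1 < La * X
          omega
      have h2 := regSet_inj (La := La) hk hX hA' m1 m2 heq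
      rw [Prod.mk.injEq] at h2
      ext
      · omega
      · exact h2.2
  calc H * A'.card / (2 * V) = H / V / 2 * A'.card := by
        field_simp
    _ ≤ J * A'.card := mul_le_mul_of_nonneg_right hJ2 (Nat.cast_nonneg _)
    _ ≤ _ := by exact_mod_cast hcard

end Pool.Agent.MWar
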