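import Pool.Agent.MWar.Ker

/-!
The second moment of the number of representations of `y` by `a + al * b`, minus the expected number,
averaged over the multiplier `al` and over `y`.
-/

set_option autoImplicit false

open MeasureTheory Set Filter Topology

namespace Pool.Agent.MWar

/-- narrow count minus wide count -/
noncomputable def FF (A B : Finset ℕ) (e H al y : ℝ) : ℝ :=
  ∑ p ∈ A ×ˢ B, gk e H ((p.1 : ℝ) + al * p.2 - y)

/-- the second moment over `y` -/
noncomputable def WW (A B : Finset ℕ) (e H al : ℝ) : ℝ :=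
  ∑ p ∈ A ×ˢ B, ∑ q ∈ A ×ˢ B, GG e H (((p.1 : ℝ) - q.1) + ((p.2 : ℝ) - q.2) * al)

theorem gk_prod_integrable {e H : ℝ} (he : 0 < e) (heH : e ≤ H) (f g : ℝ) :
    Integrable (fun y => gk e H (f - y) * gk e H (g - y)) := by
  have h1 : Integrable (fun y => gk e H (g - y)) := (integrable_gk e H).comp_sub_left g
  have h2 : Integrable (fun y => 1 / e * |gk e H (g - y)|) := h1.abs.const_mul _
  refine h2.mono' ?_ (Eventually.of_forall fun y => ?_)
  · apply Measurable.aestronglyMeasurable
    exact ((measurable_gk e H).comp (measurable_const.sub measurable_id)).mul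
      ((measurable_gk e H).comp (measurable_const.sub measurable_id))
  · rw [norm_mul, Real.norm_eq_abs, Real.norm_eq_abs]
    exact mul_le_mul_of_nonneg_right (abs_gk_le' he heH _) (abs_nonneg _)

theorem gk_prod_integral (e H f g : ℝ) :
    ∫ y, gk e H (f - y) * gk e H (g - y) = GG e H (f - g) := by
  unfold GG
  rw [← integral_sub_left_eq_self (fun v => gk e H (f - g + v) * gk e H v) volume g]
  refine integral_congr_ae (Eventually.of_forall fun y => ?_)
  change gk e H (f - y) * gk e H (g - y) = gk e H (f - g + (g - y)) * gk e H (g - y)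
  congr 2
  ring

theorem FF_sq {e H : ℝ} (A B : Finset ℕ) (al y : ℝ) :
    FF A B e H al y ^ 2 = ∑ p ∈ A ×ˢ B, ∑ q ∈ A ×ˢ B,
      gk e H ((p.1 : ℝ) + al * p.2 - y) * gk e H ((q.1 : ℝ) + al * q.2 - y) := by
  unfold FF
  rw [sq, Finset.sum_mul_sum]

theorem FF_sq_integrable {e H : ℝ} (he : 0 < e) (heH : e ≤ H) (A B : Finset ℕ) (al : ℝ) :
    Integrable (fun y => FF A B e H al y ^ 2) := by
  simp only [FF_sq]
  exact integrable_finset_sum _ fun p _ => integrable_finset_sum _ fun q _ =>
    gk_prod_integrable he heH _ _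

theorem integral_FF_sq {e H : ℝ} (he : 0 < e) (heH : e ≤ H) (A B : Finset ℕ) (al : ℝ) :
    ∫ y, FF A B e H al y ^ 2 = WW A B e H al := by
  simp only [FF_sq]
  unfold WW
  rw [integral_finset_sum _ fun p _ => integrable_finset_sum _ fun q _ =>
    gk_prod_integrable he heH _ _]
  refine Finset.sum_congr rfl fun p _ => ?_
  rw [integral_finset_sum _ fun q _ => gk_prod_integrable he heH _ _]
  refine Finset.sum_congr rfl fun q _ => ?_
  rw [gk_prod_integral]
  congr 1
  ring

theorem WW_nonneg {e H : ℝ} (he : 0 < e) (heH : e ≤ H) (A B : Finset ℕ) (al : ℝ) :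
    0 ≤ WW A B e H al := by
  rw [← integral_FF_sq he heH]
  exact integral_nonneg fun y => sq_nonneg _

theorem measurable_WW (A B : Finset ℕ) (e H : ℝ) : Measurable (WW A B e H) := by
  unfold WW
  refine Finset.measurable_fun_sum _ fun p _ => Finset.measurable_fun_sum _ fun q _ => ?_
  exact (measurable_GG e H).comp (by fun_prop)

theorem intervalIntegrable_GG {e H : ℝ} (he : 0 < e) (heH : e ≤ H) (c D s t : ℝ) :
    IntervalIntegrable (fun x => GG e H (c + D * x)) volume s t := by
  refine (intervalIntegrable_const (c := 2 / e)).mono_fun' ?_ ?_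
  · apply Measurable.aestronglyMeasurable
    exact (measurable_GG e H).comp (by fun_prop)
  · exact Eventually.of_forall fun x => abs_GG_le he heH _

theorem intervalIntegrable_WW {e H : ℝ} (he : 0 < e) (heH : e ≤ H) (A B : Finset ℕ) (s t : ℝ) :
    IntervalIntegrable (WW A B e H) volume s t := by
  have h : WW A B e H = ∑ p ∈ A ×ˢ B, ∑ q ∈ A ×ˢ B,
      fun al => GG e H (((p.1 : ℝ) - q.1) + ((p.2 : ℝ) - q.2) * al) := by
    funext al
    unfold WW
    simp only [Finset.sum_apply]
  rw [h]
  exact IntervalIntegrable.sum _ fun p _ => IntervalIntegrable.sum _ fun q _ =>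
    intervalIntegrable_GG he heH _ _ s t

/-- the second moment bound -/
theorem integral_WW_le {A B : Finset ℕ} {e H s t K L : ℝ} (he : 0 < e) (he4 : e < 1 / 2)
    (heH : e ≤ H) (hst : s ≤ t) (hK0 : 0 ≤ K)
    (hK : ∀ z : ℝ, ((A.filter fun a : ℕ => |(a : ℝ) - z| ≤ 2 * H).card : ℝ) ≤ K)
    (hL : ∀ b ∈ B, ∑ b' ∈ B.erase b, 1 / |(b : ℝ) - b'| ≤ L) :
    ∫ al in s..t, WW A B e H al ≤
      A.card * B.card * ((t - s) * (2 / e + 3 * K / (2 * H)) + 4 * K * L) := by
  have hH : 0 < H := he.trans_le heH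
  have h1 : ∫ al in s..t, WW A B e H al = ∑ p ∈ A ×ˢ B, ∑ q ∈ A ×ˢ B,
      ∫ al in s..t, GG e H (((p.1 : ℝ) - q.1) + ((p.2 : ℝ) - q.2) * al) := by
    have hq : ∀ p : ℕ × ℕ, ∫ al in s..t, ∑ q ∈ A ×ˢ B,
        GG e H (((p.1 : ℝ) - q.1) + ((p.2 : ℝ) - q.2) * al) = ∑ q ∈ A ×ˢ B,
        ∫ al in s..t, GG e H (((p.1 : ℝ) - q.1) + ((p.2 : ℝ) - q.2) * al) := fun p =>
      intervalIntegral.integral_finsetSum fun q _ => intervalIntegrable_GG he heH _ _ s t
    unfold WW
    rw [intervalIntegral.integral_finsetSum]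
    · exact Finset.sum_congr rfl fun p _ => hq p
    · intro p _
      have h : (fun al => ∑ q ∈ A ×ˢ B,
          GG e H (((p.1 : ℝ) - q.1) + ((p.2 : ℝ) - q.2) * al)) = ∑ q ∈ A ×ˢ B,
          fun al => GG e H (((p.1 : ℝ) - q.1) + ((p.2 : ℝ) - q.2) * al) := by
        funext al
        simp only [Finset.sum_apply]
      rw [h]
      exact IntervalIntegrable.sum _ fun q _ => intervalIntegrable_GG he heH _ _ s t
  rw [h1]
  have hpt : ∀ p ∈ A ×ˢ B, ∑ q ∈ A ×ˢ B,
      ∫ al in s..t, GG e H (((p.1 : ℝ) - q.1) + ((p.2 : ℝ) - q.2) * al) ≤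
      (t - s) * (2 / e + 3 * K / (2 * H)) + 4 * K * L := by
    rintro ⟨a, b⟩ hp
    rw [Finset.mem_product] at hp
    rw [Finset.sum_product_right]
    simp only []
    rw [← Finset.add_sum_erase B _ hp.2]
    apply add_le_add
    · have h2 : ∀ a' ∈ A.erase a,
          ∫ al in s..t, GG e H (((a : ℝ) - a') + ((b : ℝ) - b) * al) ≤
          (t - s) * (3 / (2 * H) * (if |(a' : ℝ) - a| ≤ 2 * H then 1 else 0)) := by
        intro a' ha'
        rw [Finset.mem_erase] at ha'
        simp only [sub_self, zero_mul, add_zero, intervalIntegral.integral_const, smul_eq_mul]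
        refine mul_le_mul_of_nonneg_left ?_ (by linarith)
        have h3 : 2 * e < |(a : ℝ) - a'| := by
          have h4 : (1 : ℝ) ≤ |(a : ℝ) - a'| := by
            have h5 : (1 : ℤ) ≤ |(a : ℤ) - a'| := by
              refine Int.one_le_abs (fun h => ha'.1 ?_)
              omega
            exact_mod_cast h5
          linarith
        split_ifs with h6
        · rw [mul_one]
          exact (le_abs_self _).trans (abs_GG_le_far he heH h3)
        · rw [GG_zero heH, mul_zero]
          rw [abs_sub_comm]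
          exact not_le.1 h6
      rw [← Finset.add_sum_erase A _ hp.1]
      have h7 : ∫ al in s..t, GG e H (((a : ℝ) - a) + ((b : ℝ) - b) * al) ≤ (t - s) * (2 / e) := by
        simp only [sub_self, zero_mul, add_zero, intervalIntegral.integral_const, smul_eq_mul]
        refine mul_le_mul_of_nonneg_left ?_ (by linarith)
        exact (le_abs_self _).trans (abs_GG_le he heH _)
      have h8 : ∑ a' ∈ A.erase a,
          ∫ al in s..t, GG e H (((a : ℝ) - a') + ((b : ℝ) - b) * al) ≤
          (t - s) * (3 * K / (2 * H)) := by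
        refine (Finset.sum_le_sum h2).trans ?_
        rw [← Finset.mul_sum, ← Finset.mul_sum]
        refine mul_le_mul_of_nonneg_left ?_ (by linarith)
        have h9 : ∑ a' ∈ A.erase a, (if |(a' : ℝ) - a| ≤ 2 * H then (1 : ℝ) else 0) ≤ K := by
          refine le_trans ?_ (hK a)
          rw [Finset.card_filter, Nat.cast_sum]
          simp only [Nat.cast_ite, Nat.cast_one, Nat.cast_zero]
          refine Finset.sum_le_sum_of_subset_of_nonneg (Finset.erase_subset _ _) fun i _ _ => ?_
          split_ifs <;> norm_num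
        calc 3 / (2 * H) * ∑ a' ∈ A.erase a, (if |(a' : ℝ) - a| ≤ 2 * H then (1 : ℝ) else 0)
            ≤ 3 / (2 * H) * K := mul_le_mul_of_nonneg_left h9 (by positivity)
          _ = 3 * K / (2 * H) := by ring
      calc _ ≤ (t - s) * (2 / e) + (t - s) * (3 * K / (2 * H)) := add_le_add h7 h8
        _ = _ := by ring
    · have h10 : ∀ b' ∈ B.erase b, ∑ a' ∈ A,
          ∫ al in s..t, GG e H (((a : ℝ) - a') + ((b : ℝ) - b') * al) ≤
          4 * K * (1 / |(b : ℝ) - b'|) := by
        intro b' hb'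
        rw [Finset.mem_erase] at hb'
        have hD : (b : ℝ) - b' ≠ 0 := by
          intro h
          apply hb'.1
          have : (b : ℝ) = b' := by linarith
          exact_mod_cast this.symm
        have hcount : ∀ x : ℝ, ∑ a' ∈ A,
            (if |(a : ℝ) - a' + ((b : ℝ) - b') * x| ≤ 2 * H then (1 : ℝ) else 0) ≤ K := by
          intro x
          refine le_trans (le_of_eq ?_) (hK ((a : ℝ) + ((b : ℝ) - b') * x))
          rw [Finset.card_filter, Nat.cast_sum]
          simp only [Nat.cast_ite, Nat.cast_one, Nat.cast_zero]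
          refine Finset.sum_congr rfl fun a' _ => ?_
          have e1 : |(a : ℝ) - a' + ((b : ℝ) - b') * x| = |(a' : ℝ) - (a + ((b : ℝ) - b') * x)| := by
            rw [abs_sub_comm]
            congr 1
            ring
          rw [e1]
        calc ∑ a' ∈ A, ∫ al in s..t, GG e H (((a : ℝ) - a') + ((b : ℝ) - b') * al)
            ≤ ∑ a' ∈ A, 2 / |(b : ℝ) - b'| *
              ((if |(a : ℝ) - a' + ((b : ℝ) - b') * t| ≤ 2 * H then 1 else 0) +
              (if |(a : ℝ) - a' + ((b : ℝ) - b') * s| ≤ 2 * H then 1 else 0)) :=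
              Finset.sum_le_sum fun a' _ => (le_abs_self _).trans (abs_avg_GG he heH hD hst _)
          _ = 2 / |(b : ℝ) - b'| * (∑ a' ∈ A,
              (if |(a : ℝ) - a' + ((b : ℝ) - b') * t| ≤ 2 * H then (1 : ℝ) else 0) +
              ∑ a' ∈ A,
              (if |(a : ℝ) - a' + ((b : ℝ) - b') * s| ≤ 2 * H then (1 : ℝ) else 0)) := by
              rw [← Finset.mul_sum, Finset.sum_add_distrib]
          _ ≤ 2 / |(b : ℝ) - b'| * (K + K) :=
              mul_le_mul_of_nonneg_left (add_le_add (hcount t) (hcount s)) (by positivity)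
          _ = 4 * K * (1 / |(b : ℝ) - b'|) := by ring
      refine (Finset.sum_le_sum h10).trans ?_
      rw [← Finset.mul_sum]
      exact mul_le_mul_of_nonneg_left (hL b hp.2) (by positivity)
  refine (Finset.sum_le_card_nsmul _ _ _ hpt).trans (le_of_eq ?_)
  rw [Finset.card_product, nsmul_eq_mul]
  push_cast
  ring

/-- the points of `[y1, y2]` that are not within `e` of a value -/
def badY (A B : Finset ℕ) (e al y1 y2 : ℝ) : Set ℝ :=
  {y | y ∈ Icc y1 y2 ∧ ∀ a ∈ A, ∀ b ∈ B, e < |(a : ℝ) + al * b - y|}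

theorem measurableSet_badY (A B : Finset ℕ) (e al y1 y2 : ℝ) :
    MeasurableSet (badY A B e al y1 y2) := by
  have h : badY A B e al y1 y2 = Icc y1 y2 ∩ ⋂ a ∈ A, ⋂ b ∈ B,
      {y | e < |(a : ℝ) + al * b - y|} := by
    ext y
    simp [badY]
  rw [h]
  refine measurableSet_Icc.inter (Finset.measurableSet_biInter _ fun a _ =>
    Finset.measurableSet_biInter _ fun b _ => ?_)
  exact (isOpen_lt continuous_const (by fun_prop)).measurableSet

/-- Chebyshev inequality for a fixed multiplier -/
theorem cheb {A B : Finset ℕ} {e H al y1 y2 ka : ℝ} (he : 0 < e) (heH : e ≤ H) (hka : 0 ≤ ka)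
    (hcount : ∀ y ∈ Icc y1 y2, ∀ b ∈ B,
      ka ≤ ((A.filter fun a : ℕ => |(a : ℝ) - (y - al * b)| < H).card : ℝ)) :
    (B.card * ka / (2 * H)) ^ 2 * (volume (badY A B e al y1 y2)).toReal ≤ WW A B e H al := by
  have hH : 0 < H := he.trans_le heH
  rw [← integral_FF_sq he heH]
  have hfin : volume (badY A B e al y1 y2) ≠ ⊤ := by
    have hsub : badY A B e al y1 y2 ⊆ Icc y1 y2 := fun y hy => hy.1
    refine ((measure_mono hsub).trans_lt ?_).ne
    simp
  have h1 : (B.card * ka / (2 * H)) ^ 2 * (volume (badY A B e al y1 y2)).toReal =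
      ∫ _ in badY A B e al y1 y2, (B.card * ka / (2 * H)) ^ 2 := by
    rw [setIntegral_const, measureReal_def, smul_eq_mul, mul_comm]
  rw [h1]
  have h1' : ∫ y in badY A B e al y1 y2, FF A B e H al y ^ 2 ≤ ∫ y, FF A B e H al y ^ 2 :=
    setIntegral_le_integral (FF_sq_integrable he heH A B al)
      (Eventually.of_forall fun y => sq_nonneg _)
  refine le_trans ?_ h1'
  refine setIntegral_mono_on (integrableOn_const hfin) (FF_sq_integrable he heH A B al).integrableOn
    (measurableSet_badY _ _ _ _ _ _) fun y hy => ?_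
  have h2 : FF A B e H al y = - ∑ p ∈ A ×ˢ B, ph H ((p.1 : ℝ) + al * p.2 - y) := by
    unfold FF
    rw [← Finset.sum_neg_distrib]
    refine Finset.sum_congr rfl fun p hp => ?_
    rw [Finset.mem_product] at hp
    unfold gk
    rw [ph_zero (hy.2 _ hp.1 _ hp.2), zero_sub]
  have h3 : B.card * ka / (2 * H) ≤ ∑ p ∈ A ×ˢ B, ph H ((p.1 : ℝ) + al * p.2 - y) := by
    rw [Finset.sum_product_right]
    have h4 : ∀ b ∈ B, ka / (2 * H) ≤ ∑ a ∈ A, ph H ((a : ℝ) + al * b - y) := by
      intro b hb
      have h5 := hcount y hy.1 b hb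
      have h6 : ∑ a ∈ A.filter (fun a : ℕ => |(a : ℝ) - (y - al * b)| < H), (1 / (2 * H)) ≤
          ∑ a ∈ A, ph H ((a : ℝ) + al * b - y) := by
        calc ∑ a ∈ A.filter (fun a : ℕ => |(a : ℝ) - (y - al * b)| < H), (1 / (2 * H))
            = ∑ a ∈ A.filter (fun a : ℕ => |(a : ℝ) - (y - al * b)| < H),
              ph H ((a : ℝ) + al * b - y) := by
              refine Finset.sum_congr rfl fun a ha => ?_
              rw [Finset.mem_filter] at ha
              rw [ph_eq]
              have e1 : (a : ℝ) + al * b - y = a - (y - al * b) := by ring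
              rw [e1]
              exact ha.2
          _ ≤ ∑ a ∈ A, ph H ((a : ℝ) + al * b - y) :=
              Finset.sum_le_sum_of_subset_of_nonneg (Finset.filter_subset _ _)
                fun a _ _ => ph_nonneg hH _
      rw [Finset.sum_const, nsmul_eq_mul] at h6
      refine le_trans ?_ h6
      rw [div_eq_mul_one_div]
      exact mul_le_mul_of_nonneg_right h5 (by positivity)
    have h7 := Finset.card_nsmul_le_sum B _ _ h4
    rw [nsmul_eq_mul] at h7
    refine le_trans (le_of_eq ?_) h7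
    ring
  rw [h2, neg_sq]
  exact pow_le_pow_left₀ (by positivity) h3 2

/-- sum of reciprocal distances in a separated set -/
theorem sum_recip {B : Finset ℕ} {sg M : ℝ} (hsg : 0 < sg) (hM : ∀ b ∈ B, (b : ℝ) ≤ M)
    (hsep : ∀ b ∈ B, ∀ b' ∈ B, b < b' → sg ≤ (b' : ℝ) - b) {b : ℕ} (hb : b ∈ B) :
    ∑ b' ∈ B.erase b, 1 / |(b : ℝ) - b'| ≤ 2 / sg * (1 + Real.log ⌊M / sg⌋₊) := by
  have hM0 : 0 ≤ M := (Nat.cast_nonneg b).trans (hM b hb)
  -- a general one-sided statement
  have key : ∀ (S : Finset ℕ), (∀ x ∈ S, x ∈ B ∧ x ≠ b) →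
      (∀ x ∈ S, ∀ y ∈ S, x ≠ y → sg ≤ abs (|(b : ℝ) - x| - |(b : ℝ) - y|)) →
      ∑ x ∈ S, 1 / |(b : ℝ) - x| ≤ 1 / sg * (1 + Real.log ⌊M / sg⌋₊) := by
    intro S hS hS2
    set j : ℕ → ℕ := fun x => ⌊|(b : ℝ) - x| / sg⌋₊ with hj
    have hdist : ∀ x ∈ S, sg ≤ |(b : ℝ) - x| := by
      intro x hx
      obtain ⟨h1, h2⟩ := hS x hx
      rcases lt_or_gt_of_ne h2 with h3 | h3
      · have := hsep x h1 b hb h3
        exact this.trans (le_abs_self _)
      · have := hsep b hb x h1 h3
        rw [abs_sub_comm]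
        exact this.trans (le_abs_self _)
    have hj1 : ∀ x ∈ S, 1 ≤ j x := by
      intro x hx
      rw [hj, Nat.one_le_floor_iff, one_le_div hsg]
      exact hdist x hx
    have hj2 : ∀ x ∈ S, j x ≤ ⌊M / sg⌋₊ := by
      intro x hx
      refine Nat.floor_le_floor ?_
      refine div_le_div_of_nonneg_right ?_ hsg.le
      have h1 := hM x (hS x hx).1
      have h2 := hM b hb
      have h3 : (0 : ℝ) ≤ x := Nat.cast_nonneg _
      have h4 : (0 : ℝ) ≤ b := Nat.cast_nonneg _
      rw [abs_le]
      constructor <;> linarith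
    have hinj : Set.InjOn j S := by
      intro x hx y hy hxy
      by_contra hne
      have h1 := hS2 x hx y hy hne
      have h2 : 0 ≤ |(b : ℝ) - x| / sg := by positivity
      have h3 : 0 ≤ |(b : ℝ) - y| / sg := by positivity
      have h4 := Nat.floor_le h2
      have h5 := Nat.lt_floor_add_one (|(b : ℝ) - x| / sg)
      have h6 := Nat.floor_le h3
      have h7 := Nat.lt_floor_add_one (|(b : ℝ) - y| / sg)
      simp only [hj] at hxy
      rw [hxy] at h4 h5
      have h8 : abs (|(b : ℝ) - x| / sg - |(b : ℝ) - y| / sg) < 1 := by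
        rw [abs_lt]
        constructor <;> linarith
      rw [← sub_div, abs_div, abs_of_pos hsg, div_lt_one hsg] at h8
      linarith
    have hterm : ∀ x ∈ S, 1 / |(b : ℝ) - x| ≤ 1 / sg * ((j x : ℝ))⁻¹ := by
      intro x hx
      have h1 : (1 : ℝ) ≤ j x := by exact_mod_cast hj1 x hx
      have h2 : (j x : ℝ) ≤ |(b : ℝ) - x| / sg := Nat.floor_le (by positivity)
      rw [le_div_iff₀ hsg] at h2
      have h3 : 1 / |(b : ℝ) - x| ≤ 1 / ((j x : ℝ) * sg) :=
        one_div_le_one_div_of_le (by positivity) h2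
      refine h3.trans (le_of_eq ?_)
      rw [one_div, mul_inv, one_div]
      ring
    calc ∑ x ∈ S, 1 / |(b : ℝ) - x| ≤ ∑ x ∈ S, 1 / sg * ((j x : ℝ))⁻¹ := Finset.sum_le_sum hterm
      _ = 1 / sg * ∑ i ∈ S.image j, ((i : ℝ))⁻¹ := by
        rw [← Finset.mul_sum, Finset.sum_image hinj]
      _ ≤ 1 / sg * ∑ i ∈ Finset.Icc 1 ⌊M / sg⌋₊, ((i : ℝ))⁻¹ := by
        refine mul_le_mul_of_nonneg_left ?_ (by positivity)
        refine Finset.sum_le_sum_of_subset_of_nonneg ?_ fun i _ _ => by positivity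
        intro i hi
        obtain ⟨x, hx, rfl⟩ := Finset.mem_image.1 hi
        rw [Finset.mem_Icc]
        exact ⟨hj1 x hx, hj2 x hx⟩
      _ ≤ 1 / sg * (1 + Real.log ⌊M / sg⌋₊) := by
        refine mul_le_mul_of_nonneg_left ?_ (by positivity)
        have h := harmonic_le_one_add_log ⌊M / sg⌋₊
        rw [harmonic_eq_sum_Icc] at h
        push_cast at h
        exact h
  have hsplit : B.erase b = B.filter (fun x => x < b) ∪ B.filter (fun x => b < x) := by
    ext x
    simp only [Finset.mem_erase, Finset.mem_union, Finset.mem_filter]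
    constructor
    · rintro ⟨h1, h2⟩
      rcases lt_or_gt_of_ne h1 with h3 | h3
      · exact Or.inl ⟨h2, h3⟩
      · exact Or.inr ⟨h2, h3⟩
    · rintro (⟨h1, h2⟩ | ⟨h1, h2⟩)
      · exact ⟨by omega, h1⟩
      · exact ⟨by omega, h1⟩
  have hdisj : Disjoint (B.filter (fun x => x < b)) (B.filter (fun x => b < x)) := by
    rw [Finset.disjoint_filter]
    intro x _ h1 h2
    omega
  rw [hsplit, Finset.sum_union hdisj]
  have hA := key (B.filter (fun x => x < b)) (fun x hx => by
    rw [Finset.mem_filter] at hx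
    exact ⟨hx.1, by omega⟩) (fun x hx y hy hxy => by
    rw [Finset.mem_filter] at hx hy
    have hxb : (x : ℝ) < b := by exact_mod_cast hx.2
    have hyb : (y : ℝ) < b := by exact_mod_cast hy.2
    rw [abs_of_pos (by linarith : (0 : ℝ) < b - x), abs_of_pos (by linarith : (0 : ℝ) < b - y)]
    rcases lt_or_gt_of_ne hxy with h3 | h3
    · have := hsep x hx.1 y hy.1 h3
      refine this.trans (le_trans (le_of_eq ?_) (le_abs_self _))
      ring
    · have := hsep y hy.1 x hx.1 h3
      refine this.trans (le_trans (le_of_eq ?_) (neg_le_abs _))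
      ring)
  have hB := key (B.filter (fun x => b < x)) (fun x hx => by
    rw [Finset.mem_filter] at hx
    exact ⟨hx.1, by omega⟩) (fun x hx y hy hxy => by
    rw [Finset.mem_filter] at hx hy
    have hxb : (b : ℝ) < x := by exact_mod_cast hx.2
    have hyb : (b : ℝ) < y := by exact_mod_cast hy.2
    rw [abs_of_neg (by linarith : (b : ℝ) - x < 0), abs_of_neg (by linarith : (b : ℝ) - y < 0)]
    rcases lt_or_gt_of_ne hxy with h3 | h3
    · have := hsep x hx.1 y hy.1 h3
      refine this.trans (le_trans (le_of_eq ?_) (neg_le_abs _))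
      ring
    · have := hsep y hy.1 x hx.1 h3
      refine this.trans (le_trans (le_of_eq ?_) (le_abs_self _))
      ring)
  calc _ ≤ 1 / sg * (1 + Real.log ⌊M / sg⌋₊) + 1 / sg * (1 + Real.log ⌊M / sg⌋₊) :=
        add_le_add hA hB
    _ = 2 / sg * (1 + Real.log ⌊M / sg⌋₊) := by ring

end Pool.Agent.MWar
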