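import Mathlib

/-!
The difference of a narrow and a wide bump, and its autocorrelation.
-/

set_option autoImplicit false

open MeasureTheory Set Filter Topology

namespace Pool.Agent.MWar

/-- bump of width `w` and integral 1 -/
noncomputable def ph (w u : ℝ) : ℝ := (Ioc (-w) w).indicator (fun _ => 1 / (2 * w)) u

/-- narrow bump minus wide bump -/
noncomputable def gk (e H u : ℝ) : ℝ := ph e u - ph H u

/-- autocorrelation -/
noncomputable def GG (e H u : ℝ) : ℝ := ∫ v, gk e H (u + v) * gk e H v

/-- primitive of `ph` -/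
noncomputable def cl (w u : ℝ) : ℝ := max (-w) (min w u) / (2 * w)

theorem ph_nonneg {w : ℝ} (hw : 0 < w) (u : ℝ) : 0 ≤ ph w u :=
  indicator_nonneg (fun _ _ => by positivity) u

theorem ph_le {w : ℝ} (hw : 0 < w) (u : ℝ) : ph w u ≤ 1 / (2 * w) :=
  indicator_le_self' (fun _ _ => by positivity) u

theorem ph_zero {w u : ℝ} (hu : w < |u|) : ph w u = 0 := by
  unfold ph
  refine indicator_of_notMem (fun h => ?_) _
  have : |u| ≤ w := abs_le.2 ⟨h.1.le, h.2⟩
  linarith

theorem ph_eq {w u : ℝ} (hu : |u| < w) : ph w u = 1 / (2 * w) := by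
  unfold ph
  rw [abs_lt] at hu
  have h : u ∈ Ioc (-w) w := ⟨hu.1, hu.2.le⟩
  exact indicator_of_mem h _

theorem measurable_ph (w : ℝ) : Measurable (ph w) :=
  measurable_const.indicator measurableSet_Ioc

theorem measurable_gk (e H : ℝ) : Measurable (gk e H) :=
  (measurable_ph e).sub (measurable_ph H)

theorem integrable_ph (w : ℝ) : Integrable (ph w) := by
  unfold ph
  rw [integrable_indicator_iff measurableSet_Ioc]
  exact integrableOn_const (by simp)

theorem integral_ph {w : ℝ} (hw : 0 < w) : ∫ u, ph w u = 1 := by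
  unfold ph
  rw [integral_indicator measurableSet_Ioc, setIntegral_const, measureReal_def, Real.volume_Ioc,
    ENNReal.toReal_ofReal (by linarith), smul_eq_mul]
  field_simp
  ring

theorem integrable_gk (e H : ℝ) : Integrable (gk e H) := (integrable_ph e).sub (integrable_ph H)

theorem abs_gk_le {e H : ℝ} (he : 0 < e) (heH : e ≤ H) (u : ℝ) : |gk e H u| ≤ ph e u + ph H u := by
  unfold gk
  have h1 := ph_nonneg he u
  have h2 := ph_nonneg (he.trans_le heH) u
  rw [abs_le]
  constructor <;> linarith

theorem abs_gk_le' {e H : ℝ} (he : 0 < e) (heH : e ≤ H) (u : ℝ) : |gk e H u| ≤ 1 / e := by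
  refine (abs_gk_le he heH u).trans ?_
  have h1 := ph_le he u
  have h2 := ph_le (he.trans_le heH) u
  have h3 : 1 / (2 * H) ≤ 1 / (2 * e) :=
    one_div_le_one_div_of_le (by linarith) (by linarith)
  have h4 : 1 / (2 * e) + 1 / (2 * e) = 1 / e := by
    field_simp
    ring
  linarith

theorem gk_zero {e H u : ℝ} (heH : e ≤ H) (hu : H < |u|) : gk e H u = 0 := by
  unfold gk
  rw [ph_zero hu, ph_zero (heH.trans_lt hu), sub_zero]

theorem integral_abs_gk {e H : ℝ} (he : 0 < e) (heH : e ≤ H) : ∫ u, |gk e H u| ≤ 2 := by
  calc ∫ u, |gk e H u| ≤ ∫ u, (ph e u + ph H u) :=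
        integral_mono (integrable_gk e H).abs ((integrable_ph e).add (integrable_ph H))
          (abs_gk_le he heH)
    _ = 2 := by
      rw [integral_add (integrable_ph e) (integrable_ph H), integral_ph he,
        integral_ph (he.trans_le heH)]
      norm_num

theorem integral_ph_interval_le {w s t : ℝ} (hw : 0 < w) (hst : s ≤ t) :
    ∫ u in s..t, ph w u = cl w t - cl w s := by
  rw [intervalIntegral.integral_of_le hst]
  unfold ph
  rw [setIntegral_indicator measurableSet_Ioc, Ioc_inter_Ioc, setIntegral_const, measureReal_def,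
    Real.volume_Ioc, smul_eq_mul]
  unfold cl
  have h : (ENNReal.ofReal (min t w - max s (-w))).toReal =
      max (-w) (min w t) - max (-w) (min w s) := by
    rw [ENNReal.toReal_ofReal']
    rcases le_total t (-w) with h1 | h1
    · have h2 : s ≤ -w := hst.trans h1
      rw [min_eq_right (by linarith : t ≤ w), min_eq_right (by linarith : s ≤ w),
        max_eq_left h1, max_eq_left h2, max_eq_right h2, min_eq_left (by linarith : t ≤ w)]
      rw [max_eq_right (by linarith)]
      ring
    · rcases le_total w s with h3 | h3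
      · have h4 : w ≤ t := h3.trans hst
        rw [min_eq_left h4, min_eq_left h3, min_eq_right h4, max_eq_left (by linarith : -w ≤ s)]
        rw [max_eq_right (by linarith)]
        ring
      · rw [min_eq_right h3, min_comm t w, max_comm s (-w)]
        have h5 : -w ≤ min w t := le_min (by linarith) h1
        rw [max_eq_right h5]
        have h6 : max (-w) s ≤ min w t := max_le h5 (le_min h3 hst)
        rw [max_eq_left (by linarith)]
  rw [h]
  ring

theorem integral_ph_interval {w : ℝ} (hw : 0 < w) (s t : ℝ) :
    ∫ u in s..t, ph w u = cl w t - cl w s := by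
  rcases le_total s t with h | h
  · exact integral_ph_interval_le hw h
  · rw [intervalIntegral.integral_symm, integral_ph_interval_le hw h]
    ring

theorem cl_bound {w : ℝ} (hw : 0 < w) (u : ℝ) : -(1 / 2) ≤ cl w u ∧ cl w u ≤ 1 / 2 := by
  unfold cl
  constructor
  · rw [le_div_iff₀ (by linarith)]
    have := le_max_left (-w) (min w u)
    linarith
  · rw [div_le_iff₀ (by linarith)]
    have : max (-w) (min w u) ≤ w := max_le (by linarith) (min_le_left _ _)
    linarith

theorem cl_right {w u : ℝ} (hw : 0 < w) (hu : w ≤ u) : cl w u = 1 / 2 := by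
  unfold cl
  rw [min_eq_left hu, max_eq_right (by linarith)]
  field_simp

theorem cl_left {w u : ℝ} (hw : 0 < w) (hu : u ≤ -w) : cl w u = -(1 / 2) := by
  unfold cl
  rw [min_eq_right (by linarith), max_eq_left hu]
  field_simp

/-- primitive of `gk` -/
noncomputable def Ga (e H u : ℝ) : ℝ := cl e u - cl H u

theorem abs_Ga_le {e H : ℝ} (he : 0 < e) (heH : e ≤ H) (u : ℝ) : |Ga e H u| ≤ 1 := by
  have h1 := cl_bound he u
  have h2 := cl_bound (he.trans_le heH) u
  unfold Ga
  rw [abs_le]
  constructor <;> linarith

theorem Ga_zero {e H u : ℝ} (he : 0 < e) (heH : e ≤ H) (hu : H ≤ |u|) : Ga e H u = 0 := by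
  unfold Ga
  rcases le_total 0 u with h | h
  · rw [abs_of_nonneg h] at hu
    rw [cl_right he (heH.trans hu), cl_right (he.trans_le heH) hu, sub_self]
  · rw [abs_of_nonpos h] at hu
    rw [cl_left he (by linarith), cl_left (he.trans_le heH) (by linarith), sub_self]

theorem integral_gk_interval {e H : ℝ} (he : 0 < e) (heH : e ≤ H) (s t : ℝ) :
    ∫ u in s..t, gk e H u = Ga e H t - Ga e H s := by
  unfold gk
  rw [intervalIntegral.integral_sub (integrable_ph e).intervalIntegrable
    (integrable_ph H).intervalIntegrable, integral_ph_interval he,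
    integral_ph_interval (he.trans_le heH)]
  unfold Ga
  ring

theorem integral_gk_affine {e H : ℝ} (he : 0 < e) (heH : e ≤ H) {D : ℝ} (hD : D ≠ 0) (c s t : ℝ) :
    ∫ x in s..t, gk e H (c + D * x) = (Ga e H (c + D * t) - Ga e H (c + D * s)) / D := by
  rw [intervalIntegral.integral_comp_add_mul _ hD, integral_gk_interval he heH, smul_eq_mul]
  ring

theorem GG_zero {e H u : ℝ} (heH : e ≤ H) (hu : 2 * H < |u|) : GG e H u = 0 := by
  unfold GG
  have : (fun v => gk e H (u + v) * gk e H v) = fun _ => 0 := by
    funext v
    by_cases hv : H < |v|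
    · rw [gk_zero heH hv, mul_zero]
    · have h1 : H < |u + v| := by
        have h2 : |u| ≤ |u + v| + |v| := by
          have := abs_sub (u + v) v
          rwa [add_sub_cancel_right] at this
        linarith [not_lt.1 hv]
      rw [gk_zero heH h1, zero_mul]
  rw [this, integral_zero]

theorem abs_GG_le {e H : ℝ} (he : 0 < e) (heH : e ≤ H) (u : ℝ) : |GG e H u| ≤ 2 / e := by
  unfold GG
  have h := norm_integral_le_of_norm_le (μ := volume)
    (f := fun v => gk e H (u + v) * gk e H v) (g := fun v => 1 / e * |gk e H v|)
    ((integrable_gk e H).abs.const_mul _) (Eventually.of_forall fun v => by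
      rw [norm_mul, Real.norm_eq_abs, Real.norm_eq_abs]
      exact mul_le_mul_of_nonneg_right (abs_gk_le' he heH _) (abs_nonneg _))
  rw [Real.norm_eq_abs] at h
  refine h.trans ?_
  rw [integral_const_mul]
  calc 1 / e * ∫ u, |gk e H u| ≤ 1 / e * 2 :=
        mul_le_mul_of_nonneg_left (integral_abs_gk he heH) (by positivity)
    _ = 2 / e := by ring

theorem abs_GG_le_far {e H : ℝ} (he : 0 < e) (heH : e ≤ H) {u : ℝ} (hu : 2 * e < |u|) :
    |GG e H u| ≤ 3 / (2 * H) := by
  have hH : 0 < H := he.trans_le heH
  unfold GG
  have hpt : ∀ v, ‖gk e H (u + v) * gk e H v‖ ≤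
      1 / (2 * H) * (ph e (u + v) + ph e v + ph H v) := by
    intro v
    have h0 : ph e (u + v) * ph e v = 0 := by
      by_cases hv : e < |v|
      · rw [ph_zero hv, mul_zero]
      · have h1 : e < |u + v| := by
          have h2 : |u| ≤ |u + v| + |v| := by
            have := abs_sub (u + v) v
            rwa [add_sub_cancel_right] at this
          linarith [not_lt.1 hv]
        rw [ph_zero h1, zero_mul]
    have e1 : gk e H (u + v) * gk e H v = ph H (u + v) * ph H v -
        (ph e (u + v) * ph H v + ph H (u + v) * ph e v) := by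
      unfold gk
      linear_combination h0
    have a1 := ph_nonneg he (u + v)
    have a2 := ph_nonneg he v
    have a3 := ph_nonneg hH (u + v)
    have a4 := ph_nonneg hH v
    have b3 := ph_le hH (u + v)
    have b4 := ph_le hH v
    have c1 : ph H (u + v) * ph H v ≤ 1 / (2 * H) * ph H v := mul_le_mul_of_nonneg_right b3 a4
    have c2 : ph e (u + v) * ph H v ≤ ph e (u + v) * (1 / (2 * H)) :=
      mul_le_mul_of_nonneg_left b4 a1
    have c3 : ph H (u + v) * ph e v ≤ 1 / (2 * H) * ph e v := mul_le_mul_of_nonneg_right b3 a2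
    have d1 := mul_nonneg a3 a4
    have d2 := mul_nonneg a1 a4
    have d3 := mul_nonneg a3 a2
    have q1 : 0 ≤ 1 / (2 * H) * ph H v := by positivity
    have q2 : 0 ≤ 1 / (2 * H) * ph e (u + v) := by positivity
    have q3 : 0 ≤ 1 / (2 * H) * ph e v := by positivity
    rw [e1, Real.norm_eq_abs, abs_le]
    constructor <;> nlinarith
  have hi1 : Integrable (fun v => ph e (u + v)) := (integrable_ph e).comp_add_left u
  have hi2 : Integrable (fun v => ph e (u + v) + ph e v) := hi1.add (integrable_ph e)
  have hi : Integrable (fun v => ph e (u + v) + ph e v + ph H v) :=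
    hi2.add (integrable_ph H)
  have h := norm_integral_le_of_norm_le (hi.const_mul (1 / (2 * H)))
    (Eventually.of_forall hpt)
  rw [Real.norm_eq_abs] at h
  refine h.trans (le_of_eq ?_)
  rw [integral_const_mul, integral_add hi2 (integrable_ph H),
    integral_add hi1 (integrable_ph e), integral_add_left_eq_self (ph e) u, integral_ph he,
    integral_ph hH]
  field_simp
  ring

theorem measurable_GG (e H : ℝ) : Measurable (GG e H) := by
  unfold GG
  have h : StronglyMeasurable (Function.uncurry fun (u v : ℝ) => gk e H (u + v) * gk e H v) := by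
    apply Measurable.stronglyMeasurable
    exact ((measurable_gk e H).comp (measurable_fst.add measurable_snd)).mul
      ((measurable_gk e H).comp measurable_snd)
  exact (h.integral_prod_right (ν := volume)).measurable

/-- average of the autocorrelation along a line -/
theorem abs_avg_GG {e H : ℝ} (he : 0 < e) (heH : e ≤ H) {D : ℝ} (hD : D ≠ 0) {s t : ℝ}
    (hst : s ≤ t) (c : ℝ) :
    |∫ x in s..t, GG e H (c + D * x)| ≤
      2 / |D| * ((if |c + D * t| ≤ 2 * H then 1 else 0) +
        (if |c + D * s| ≤ 2 * H then 1 else 0)) := by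
  have hH : 0 < H := he.trans_le heH
  have hDpos : 0 < |D| := abs_pos.2 hD
  have hswap : ∫ x in s..t, GG e H (c + D * x) =
      ∫ v, gk e H v * ((Ga e H (c + v + D * t) - Ga e H (c + v + D * s)) / D) := by
    rw [intervalIntegral.integral_of_le hst]
    unfold GG
    rw [integral_integral_swap]
    · refine integral_congr_ae (Eventually.of_forall fun v => ?_)
      change ∫ x in Ioc s t, gk e H (c + D * x + v) * gk e H v =
        gk e H v * ((Ga e H (c + v + D * t) - Ga e H (c + v + D * s)) / D)
      rw [← intervalIntegral.integral_of_le hst, ← integral_gk_affine he heH hD (c + v) s t,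
        ← intervalIntegral.integral_const_mul]
      refine intervalIntegral.integral_congr fun x _ => ?_
      change gk e H (c + D * x + v) * gk e H v = gk e H v * gk e H (c + v + D * x)
      rw [mul_comm]
      congr 2
      ring
    · have hb : Integrable (fun v => 1 / e * |gk e H v|) :=
        (integrable_gk e H).abs.const_mul _
      have hb2 : Integrable (fun p : ℝ × ℝ => 1 / e * |gk e H p.2|)
          ((volume.restrict (Ioc s t)).prod volume) := hb.comp_snd _
      refine hb2.mono' ?_ (Eventually.of_forall fun p => ?_)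
      · apply Measurable.aestronglyMeasurable
        refine Measurable.mul ?_ ((measurable_gk e H).comp measurable_snd)
        exact (measurable_gk e H).comp (by fun_prop)
      · simp only [Function.uncurry]
        rw [norm_mul, Real.norm_eq_abs, Real.norm_eq_abs]
        exact mul_le_mul_of_nonneg_right (abs_gk_le' he heH _) (abs_nonneg _)
  rw [hswap]
  set J : ℝ := (if |c + D * t| ≤ 2 * H then 1 else 0) + (if |c + D * s| ≤ 2 * H then 1 else 0)
    with hJ
  have hGa : ∀ v x : ℝ, |v| ≤ H → |Ga e H (c + v + D * x)| ≤
      if |c + D * x| ≤ 2 * H then 1 else 0 := by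
    intro v x hv
    split_ifs with h
    · exact abs_Ga_le he heH _
    · rw [Ga_zero he heH, abs_zero]
      have h1 : |c + D * x| ≤ |c + v + D * x| + |v| := by
        have := abs_sub (c + v + D * x) v
        have e1 : c + v + D * x - v = c + D * x := by ring
        rwa [e1] at this
      linarith [not_le.1 h]
  have hpt : ∀ v, ‖gk e H v * ((Ga e H (c + v + D * t) - Ga e H (c + v + D * s)) / D)‖ ≤
      J / |D| * |gk e H v| := by
    intro v
    rw [norm_mul, Real.norm_eq_abs, Real.norm_eq_abs, abs_div, mul_comm]
    by_cases hv : H < |v|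
    · rw [gk_zero heH hv, abs_zero, mul_zero, mul_zero]
    · have hv2 := not_lt.1 hv
      refine mul_le_mul_of_nonneg_right ?_ (abs_nonneg _)
      refine div_le_div_of_nonneg_right ?_ hDpos.le
      exact (abs_sub _ _).trans (add_le_add (hGa v t hv2) (hGa v s hv2))
  have h := norm_integral_le_of_norm_le ((integrable_gk e H).abs.const_mul (J / |D|))
    (Eventually.of_forall hpt)
  rw [Real.norm_eq_abs, integral_const_mul] at h
  refine h.trans ?_
  have hJ0 : 0 ≤ J := by
    rw [hJ]
    split_ifs <;> norm_num
  calc J / |D| * ∫ u, |gk e H u| ≤ J / |D| * 2 :=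
        mul_le_mul_of_nonneg_left (integral_abs_gk he heH) (by positivity)
    _ = 2 / |D| * J := by ring

end Pool.Agent.MWar
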