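import Pool.Agent.MWar.Main

/-!
Numerics: of `4k` summands, `2 * ceil (k / 5)` generic ones are enough.
-/

set_option autoImplicit false

open Filter

namespace Pool.Agent.MWar

theorem rho_le_exp {k : ℕ} (hk : 2 ≤ k) (n : ℕ) : rho k ^ n ≤ Real.exp (-(n / k)) := by
  have h1 : rho k ≤ Real.exp (-(1 / k)) := Real.one_sub_le_exp_neg (1 / (k : ℝ))
  calc rho k ^ n ≤ Real.exp (-(1 / k)) ^ n := pow_le_pow_left₀ (rho_nonneg hk) h1 n
    _ = Real.exp (-(n / k)) := by
      rw [← Real.exp_nat_mul]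
      congr 1
      ring

theorem exp_a : Real.exp (-(1 / 5)) < 0.81875 := by
  rw [Real.exp_neg, inv_lt_comm₀ (Real.exp_pos _) (by norm_num)]
  have h : (0.81875 : ℝ)⁻¹ ^ 5 < Real.exp (1 / 5) ^ 5 := by
    rw [← Real.exp_nat_mul]
    have e1 : ((5 : ℕ) : ℝ) * (1 / 5) = 1 := by norm_num
    rw [e1]
    refine lt_trans ?_ Real.exp_one_gt_d9
    norm_num
  exact lt_of_pow_lt_pow_left₀ 5 (Real.exp_pos _).le h

theorem exp_b : Real.exp (-(77 / 45)) < 0.18125 := by
  rw [Real.exp_neg, inv_lt_comm₀ (Real.exp_pos _) (by norm_num)]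
  have h : (0.18125 : ℝ)⁻¹ ^ 45 < Real.exp (77 / 45) ^ 45 := by
    rw [← Real.exp_nat_mul]
    have e1 : ((45 : ℕ) : ℝ) * (77 / 45) = ((77 : ℕ) : ℝ) * 1 := by norm_num
    rw [e1, Real.exp_nat_mul]
    have h2 : (2.7182818283 : ℝ) ^ 77 < Real.exp 1 ^ 77 :=
      pow_lt_pow_left₀ Real.exp_one_gt_d9 (by norm_num) (by norm_num)
    refine lt_trans ?_ h2
    norm_num
  exact lt_of_pow_lt_pow_left₀ 45 (Real.exp_pos _).le h

theorem cond_four (k : ℕ) (hk : 2 ≤ k) :
    rho k ^ ((4 * k - 2 * ((k + 4) / 5)) / 2) + rho k ^ ((2 * ((k + 4) / 5)) / 2) < 1 := by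
  have e1 : (4 * k - 2 * ((k + 4) / 5)) / 2 = 2 * k - (k + 4) / 5 := by omega
  have e2 : (2 * ((k + 4) / 5)) / 2 = (k + 4) / 5 := by omega
  rw [e1, e2]
  rcases le_or_gt 9 k with h9 | h9
  · set n : ℕ := (k + 4) / 5 with hn
    have hn1 : k ≤ 5 * n := by omega
    have hn2 : 5 * n ≤ k + 4 := by omega
    have hk0 : (0 : ℝ) < k := by
      have : 0 < k := by omega
      exact_mod_cast this
    have hn1' : (k : ℝ) ≤ 5 * n := by exact_mod_cast hn1
    have hn2' : 5 * (n : ℝ) ≤ k + 4 := by exact_mod_cast hn2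
    have h9' : (9 : ℝ) ≤ k := by exact_mod_cast h9
    have hA : rho k ^ n < 0.81875 := by
      refine (rho_le_exp hk n).trans_lt (lt_of_le_of_lt ?_ exp_a)
      rw [Real.exp_le_exp, neg_le_neg_iff, div_le_div_iff₀ (by norm_num) hk0]
      linarith
    have hB : rho k ^ (2 * k - n) < 0.18125 := by
      refine (rho_le_exp hk _).trans_lt (lt_of_le_of_lt ?_ exp_b)
      rw [Real.exp_le_exp, neg_le_neg_iff, div_le_div_iff₀ (by norm_num) hk0,
        Nat.cast_sub (by omega)]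
      push_cast
      linarith
    have : (0.81875 : ℝ) + 0.18125 = 1 := by norm_num
    linarith
  · unfold rho
    interval_cases k <;> norm_num

end Pool.Agent.MWar
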