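import Pool.Agent.MWar.Scale
import Pool.Agent.MWar.Dim

/-!
For one pair of blocks: the multipliers that are bad at infinitely many scales form a set of small
Hausdorff dimension.
-/

set_option autoImplicit false

open MeasureTheory Set Filter Topology
open scoped ENNReal NNReal

namespace Pool.Agent.MWar

/-- the dimension bound -/
noncomputable def dimB (k r t : ℕ) : ℝ := max (rho k ^ r + rho k ^ t) (1 - 1 / (4 * k))

theorem badY_near {A B : Finset ℕ} {e x y y1 y2 V : ℝ} (he : 0 < e) (hV : 0 < V)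
    (hB : ∀ b ∈ B, (b : ℝ) ≤ V) (hxy : |y - x| ≤ e / 2 / V) :
    badY A B e x y1 y2 ⊆ badY A B (e / 2) y y1 y2 := by
  intro Y hY
  refine ⟨hY.1, fun a ha b hb => ?_⟩
  have h1 := hY.2 a ha b hb
  have h2 : |(y - x) * b| ≤ e / 2 := by
    rw [abs_mul, abs_of_nonneg (Nat.cast_nonneg b : (0 : ℝ) ≤ b)]
    calc |y - x| * b ≤ e / 2 / V * V :=
          mul_le_mul hxy (hB b hb) (Nat.cast_nonneg _) (by positivity)
      _ = e / 2 := by field_simp
  have h3 : (a : ℝ) + x * b - Y = (a + y * b - Y) - (y - x) * b := by ring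
  rw [h3] at h1
  have h4 := abs_sub ((a : ℝ) + y * b - Y) ((y - x) * b)
  linarith

theorem pair {k r t : ℕ} (hk : 2 ≤ k) (hrt : rho k ^ (r + 1) + rho k ^ t < 1) {s u e : ℝ}
    (hs : 0 < s) (hsu : s ≤ u) (he : 0 < e) (he1 : e < 1) {La : ℕ} (hLa : 2 ≤ La) :
    ∃ A B : ℕ → Finset ℕ, (∀ j, ∀ a ∈ A j, IsSum k (r + 1) a) ∧ (∀ j, ∀ b ∈ B j, IsSum k t b) ∧
      dimH {al : ℝ | ∃ᶠ j : ℕ in atTop, al ∈ {al : ℝ | al ∈ Icc s u ∧ ((2 : ℝ) ^ j) ^ k ≤
        (volume (badY (A j) (B j) e al ((2 ^ k + u) * ((2 : ℝ) ^ j) ^ k)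
          (((La : ℝ) - 1) ^ k * ((2 : ℝ) ^ j) ^ k))).toReal}} ≤
        ENNReal.ofReal (dimB k (r + 1) t) := by
  classical
  have hk1 : (1 : ℝ) ≤ k := by
    have : 1 ≤ k := by omega
    exact_mod_cast this
  have hk0 : (0 : ℝ) < k := by linarith
  obtain ⟨C, X0, hC, hX0, hsc⟩ := scale hk hrt hs hsu (e := e / 2) (by linarith) (by linarith) La hLa
  set c : ℝ := min (k * (1 - rho k ^ (r + 1) - rho k ^ t)) (1 / 4) with hc
  have hc0 : 0 < c := by
    rw [hc]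
    exact lt_min (mul_pos hk0 (by linarith)) (by norm_num)
  have hc4 : c ≤ 1 / 4 := min_le_right _ _
  -- the data at level j
  have hdata : ∀ j : ℕ, ∃ (A B : Finset ℕ), (∀ a ∈ A, IsSum k (r + 1) a) ∧
      (∀ b ∈ B, IsSum k t b) ∧ (X0 ≤ (2 : ℝ) ^ j → (∀ b ∈ B, (b : ℝ) ≤ ((2 : ℝ) ^ j) ^ k) ∧
        ∃ W : ℝ → ℝ, IntervalIntegrable W volume s u ∧ (∀ al, 0 ≤ W al) ∧
        ∫ al in s..u, W al ≤ C * ((2 : ℝ) ^ j) ^ ((k : ℝ) - c) ∧
        ∀ al ∈ Icc s u, (volume (badY A B (e / 2) al ((2 ^ k + u) * ((2 : ℝ) ^ j) ^ k)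
        (((La : ℝ) - 1) ^ k * ((2 : ℝ) ^ j) ^ k))).toReal ≤ W al) := by
    intro j
    by_cases hj : X0 ≤ (2 : ℝ) ^ j
    · obtain ⟨A, B, W, h1, h2, h3, h4, h5, h6, h7⟩ := hsc (2 ^ j) (by push_cast; exact hj)
      push_cast at h3 h6 h7
      exact ⟨A, B, h1, h2, fun _ => ⟨h3, W, h4, h5, h6, h7⟩⟩
    · exact ⟨∅, ∅, by simp, by simp, fun h => absurd h hj⟩
  choose A B hA hB hW using hdata
  refine ⟨A, B, hA, hB, ?_⟩
  set E : ℕ → Set ℝ := fun j => {al : ℝ | al ∈ Icc s u ∧ ((2 : ℝ) ^ j) ^ k ≤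
        (volume (badY (A j) (B j) e al ((2 ^ k + u) * ((2 : ℝ) ^ j) ^ k)
          (((La : ℝ) - 1) ^ k * ((2 : ℝ) ^ j) ^ k))).toReal} with hE
  set l : ℕ → ℝ := fun j => e / 2 / ((2 : ℝ) ^ j) ^ k with hl
  have hVpos : ∀ j : ℕ, (0 : ℝ) < ((2 : ℝ) ^ j) ^ k := fun j => by positivity
  have hlpos : ∀ j, 0 < l j := fun j => div_pos (by linarith) (hVpos j)
  obtain ⟨j0, hj0⟩ : ∃ j0 : ℕ, ∀ j, j0 ≤ j → X0 ≤ (2 : ℝ) ^ j := by
    obtain ⟨n, hn⟩ := pow_unbounded_of_one_lt X0 (one_lt_two : (1 : ℝ) < 2)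
    exact ⟨n, fun j hj => hn.le.trans (pow_le_pow_right₀ one_le_two hj)⟩
  -- covers
  have hcov : ∀ j, ∃ T : Finset ℕ, (j0 ≤ j → (T.card : ℝ) ≤
      (2 * C / e + 1) * ((2 : ℝ) ^ j) ^ ((k : ℝ) - c) ∧
      E j ⊆ ⋃ i ∈ T, Icc (s + i * l j) (s + i * l j + l j)) ∧ (¬ j0 ≤ j → T = ∅) := by
    intro j
    by_cases hj : j0 ≤ j
    · obtain ⟨hb, W, h4, h5, h6, h7⟩ := hW j (hj0 j hj)
      obtain ⟨T, hT1, hT2⟩ := cover (hVpos j) (hlpos j) hsu h4 h5 h6 (E := E j)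
        (fun x hx => hx.1) (fun x hx y hy hxy => by
          refine hx.2.trans (le_trans ?_ (h7 y hy))
          refine ENNReal.toReal_mono ?_ (measure_mono (badY_near he (hVpos j) hb hxy))
          have hsub : badY (A j) (B j) (e / 2) y ((2 ^ k + u) * ((2 : ℝ) ^ j) ^ k)
              (((La : ℝ) - 1) ^ k * ((2 : ℝ) ^ j) ^ k) ⊆
              Icc ((2 ^ k + u) * ((2 : ℝ) ^ j) ^ k) (((La : ℝ) - 1) ^ k * ((2 : ℝ) ^ j) ^ k) :=
            fun z hz => hz.1
          exact ((measure_mono hsub).trans_lt (by simp)).ne)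
      refine ⟨T, fun _ => ⟨hT1.trans ?_, hT2⟩, fun h => absurd hj h⟩
      have h8 : ((2 : ℝ) ^ j) ^ k * l j = e / 2 := by
        simp only [hl]
        have := (hVpos j).ne'
        field_simp
      rw [h8]
      have h9 : (1 : ℝ) ≤ ((2 : ℝ) ^ j) ^ ((k : ℝ) - c) :=
        Real.one_le_rpow (one_le_pow₀ one_le_two) (by linarith)
      have h10 : C * ((2 : ℝ) ^ j) ^ ((k : ℝ) - c) / (e / 2) =
          2 * C / e * ((2 : ℝ) ^ j) ^ ((k : ℝ) - c) := by
        field_simp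
      rw [h10]
      linarith
    · exact ⟨∅, fun h => absurd h hj, fun _ => rfl⟩
  choose T hT hT0 using hcov
  have hanti : Antitone l := by
    intro i j hij
    simp only [hl]
    refine div_le_div_of_nonneg_left (by linarith) (hVpos i) ?_
    exact pow_le_pow_left₀ (by positivity) (pow_le_pow_right₀ one_le_two hij) k
  have hl0 : Tendsto l atTop (𝓝 0) := by
    have h1 : ∀ j, l j ≤ e / 2 * (1 / 2 : ℝ) ^ j := by
      intro j
      simp only [hl]
      rw [one_div, inv_pow, ← div_eq_mul_inv]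
      refine div_le_div_of_nonneg_left (by linarith) (by positivity) ?_
      calc (2 : ℝ) ^ j = ((2 : ℝ) ^ j) ^ 1 := (pow_one _).symm
        _ ≤ ((2 : ℝ) ^ j) ^ k := pow_le_pow_right₀ (one_le_pow₀ one_le_two) (by omega)
    have h2 : Tendsto (fun j : ℕ => e / 2 * (1 / 2 : ℝ) ^ j) atTop (𝓝 0) := by
      have := (tendsto_pow_atTop_nhds_zero_of_lt_one (by norm_num : (0 : ℝ) ≤ 1 / 2)
        (by norm_num)).const_mul (e / 2)
      rwa [mul_zero] at this
    exact squeeze_zero (fun j => (hlpos j).le) h1 h2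
  have hdimB : dimB k (r + 1) t = 1 - c / k := by
    unfold dimB
    rw [hc]
    have h1 : min (k * (1 - rho k ^ (r + 1) - rho k ^ t)) (1 / 4) / (k : ℝ) =
        min (1 - rho k ^ (r + 1) - rho k ^ t) (1 / (4 * k)) := by
      rw [← min_div_div_right hk0.le]
      congr 1
      · field_simp
      · field_simp
    rw [h1]
    rcases le_total (1 - rho k ^ (r + 1) - rho k ^ t) (1 / (4 * (k : ℝ))) with h2 | h2
    · rw [min_eq_left h2, max_eq_left (by linarith)]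
      ring
    · rw [min_eq_right h2, max_eq_right (by linarith)]
  have hmain : ∀ d : ℝ≥0, dimB k (r + 1) t < d → dimH {x | ∃ᶠ j in atTop, x ∈ E j} ≤ d := by
    intro d hd
    have hdpos : (0 : ℝ) < d := by
      refine lt_of_le_of_lt ?_ hd
      unfold dimB
      refine le_trans ?_ (le_max_right _ _)
      have : 1 / (4 * (k : ℝ)) ≤ 1 := by
        rw [div_le_one (by linarith)]
        linarith
      linarith
    refine dimH_limsup_le (T := T) (a := fun j i => s + i * l j) (j0 := j0) hanti hl0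
      (fun j hj => (hT j hj).2) (by exact_mod_cast hdpos) ?_
    set p : ℝ := (k : ℝ) - c - k * d with hp
    have hp0 : p < 0 := by
      rw [hdimB] at hd
      have h3 : (k : ℝ) * (1 - c / k) < k * d := mul_lt_mul_of_pos_left hd hk0
      have h4 : (k : ℝ) * (1 - c / k) = k - c := by field_simp
      rw [hp]
      linarith
    set q : ℝ := (2 : ℝ) ^ p with hq
    have hq0 : 0 < q := Real.rpow_pos_of_pos (by norm_num) _
    have hq1 : q < 1 := Real.rpow_lt_one_of_one_lt_of_neg (by norm_num) hp0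
    set G : ℝ := (2 * C / e + 1) * (e / 2) ^ (d : ℝ) with hG
    have hsumm : Summable (fun j : ℕ => G * q ^ j) :=
      (summable_geometric_of_lt_one hq0.le hq1).mul_left G
    refine ne_top_of_le_ne_top hsumm.tsum_ofReal_ne_top (ENNReal.tsum_le_tsum fun j => ?_)
    by_cases hj : j0 ≤ j
    · have h5 := (hT j hj).1
      have h6 : ((T j).card : ℝ≥0∞) * ENNReal.ofReal (l j) ^ (d : ℝ) =
          ENNReal.ofReal ((T j).card * l j ^ (d : ℝ)) := by
        rw [ENNReal.ofReal_mul (Nat.cast_nonneg _), ENNReal.ofReal_natCast,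
          ENNReal.ofReal_rpow_of_pos (hlpos j)]
      rw [h6]
      refine ENNReal.ofReal_le_ofReal ?_
      have h7 : l j ^ (d : ℝ) = (e / 2) ^ (d : ℝ) / (((2 : ℝ) ^ j) ^ k) ^ (d : ℝ) :=
        Real.div_rpow (by linarith) (hVpos j).le _
      have h2j : (0 : ℝ) < (2 : ℝ) ^ j := by positivity
      have h8 : (((2 : ℝ) ^ j) ^ k) ^ (d : ℝ) = ((2 : ℝ) ^ j) ^ ((k : ℝ) * d) := by
        rw [← Real.rpow_natCast ((2 : ℝ) ^ j) k, ← Real.rpow_mul h2j.le]
      have h9 : q ^ j = ((2 : ℝ) ^ j) ^ ((k : ℝ) - c) / ((2 : ℝ) ^ j) ^ ((k : ℝ) * d) := by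
        rw [← Real.rpow_sub h2j, hq, ← Real.rpow_natCast, ← Real.rpow_natCast, ← Real.rpow_mul
          (by norm_num), ← Real.rpow_mul (by norm_num), mul_comm]
      rw [h7, h8]
      have h10 : 0 < ((2 : ℝ) ^ j) ^ ((k : ℝ) * d) := Real.rpow_pos_of_pos h2j _
      have h11 : 0 < (e / 2) ^ (d : ℝ) := Real.rpow_pos_of_pos (by linarith) _
      calc ((T j).card : ℝ) * ((e / 2) ^ (d : ℝ) / ((2 : ℝ) ^ j) ^ ((k : ℝ) * d))
          ≤ (2 * C / e + 1) * ((2 : ℝ) ^ j) ^ ((k : ℝ) - c) *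
            ((e / 2) ^ (d : ℝ) / ((2 : ℝ) ^ j) ^ ((k : ℝ) * d)) := by gcongr
        _ = G * q ^ j := by
          rw [h9, hG]
          ring
    · rw [hT0 j hj]
      simp
  by_contra hcon
  rw [not_le] at hcon
  obtain ⟨d, hd1, hd2⟩ := ENNReal.lt_iff_exists_nnreal_btwn.1 hcon
  have hd3 : dimB k (r + 1) t < d := by
    by_contra h
    rw [not_lt] at h
    have h2 : (d : ℝ≥0∞) ≤ ENNReal.ofReal (dimB k (r + 1) t) := by
      rw [← ENNReal.ofReal_coe_nnreal]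
      exact ENNReal.ofReal_le_ofReal h
    exact absurd hd1 (not_lt.2 h2)
  exact absurd (hmain d hd3) (not_le.2 hd2)

end Pool.Agent.MWar
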