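import Pool.Agent.MWar.Num

/-!
Waring's problem with one generic real multiplier: for every `k >= 2` and all `al > 0` outside a set
of Hausdorff dimension less than one, every large integer is a sum of `r` positive `k`-th powers plus
the integer part of `al` times a sum of `t` positive `k`-th powers, as soon as
`(1 - 1/k)^(r/2) + (1 - 1/k)^(t/2) < 1`; this holds for `r + t = 4k`, `t = 2 * ceil (k / 5)`.
-/

set_option autoImplicit false

open Filter MeasureTheory

namespace Pool.Agent.Results.MP_ee77ae_nt.OneMultiplier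

open Pool.Agent.MWar

/-- `Represents k r t al`: sums of `r` positive `k`-th powers plus `al` times sums of `t` positive
`k`-th powers come arbitrarily close to all large real numbers, and with the integer part they give
all large natural numbers. Here `IsSum k j n` says that `n` is a sum of `j` positive `k`-th powers. -/
def Represents (k r t : ℕ) (al : ℝ) : Prop :=
  (∀ ε : ℝ, 0 < ε → ∀ᶠ Y : ℝ in atTop, ∃ m n : ℕ, IsSum k r m ∧ IsSum k t n ∧
    |(m : ℝ) + al * n - Y| < ε) ∧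
  (∀ᶠ N : ℕ in atTop, ∃ m n : ℕ, IsSum k r m ∧ IsSum k t n ∧ m + ⌊al * n⌋₊ = N)

theorem dim_bound {k r t : ℕ} (hk : 2 ≤ k)
    (h : (1 - 1 / (k : ℝ)) ^ (r / 2) + (1 - 1 / (k : ℝ)) ^ (t / 2) < 1) :
    dimH {al : ℝ | 0 < al ∧ ¬ Represents k r t al} ≤
      ENNReal.ofReal (max ((1 - 1 / (k : ℝ)) ^ (r / 2) + (1 - 1 / (k : ℝ)) ^ (t / 2))
        (1 - 1 / (4 * k))) := by
  refine (dimH_mono ?_).trans (dimH_exc (k := k) (r := r) (t := t) hk h)
  rintro al ⟨hal, hR⟩
  refine ⟨hal, fun hall => hR ⟨hall, ?_⟩⟩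
  exact floor_of_rep hal (hall (1 / 2) (by norm_num))

theorem dim_lt_one {k r t : ℕ} (hk : 2 ≤ k)
    (h : (1 - 1 / (k : ℝ)) ^ (r / 2) + (1 - 1 / (k : ℝ)) ^ (t / 2) < 1) :
    dimH {al : ℝ | 0 < al ∧ ¬ Represents k r t al} < 1 := by
  refine (dim_bound hk h).trans_lt ?_
  rw [← ENNReal.ofReal_one]
  refine (ENNReal.ofReal_lt_ofReal_iff one_pos).2 (max_lt h ?_)
  have hk0 : (0 : ℝ) < k := by
    have : 0 < k := by omega
    exact_mod_cast this
  have : 0 < 1 / (4 * (k : ℝ)) := by positivity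
  linarith

theorem result :
    (∀ k r t : ℕ, 2 ≤ k → (1 - 1 / (k : ℝ)) ^ (r / 2) + (1 - 1 / (k : ℝ)) ^ (t / 2) < 1 →
      dimH {al : ℝ | 0 < al ∧ ¬ Represents k r t al} ≤
        ENNReal.ofReal (max ((1 - 1 / (k : ℝ)) ^ (r / 2) + (1 - 1 / (k : ℝ)) ^ (t / 2))
          (1 - 1 / (4 * k)))) ∧
    (∀ k : ℕ, 2 ≤ k →
      dimH {al : ℝ | 0 < al ∧
        ¬ Represents k (4 * k - 2 * ((k + 4) / 5)) (2 * ((k + 4) / 5)) al} < 1 ∧
      ∀ᵐ al : ℝ, 0 < al →
        Represents k (4 * k - 2 * ((k + 4) / 5)) (2 * ((k + 4) / 5)) al) := by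
  refine ⟨fun k r t hk h => dim_bound hk h, fun k hk => ?_⟩
  have h1 := dim_lt_one hk (cond_four k hk)
  refine ⟨h1, ?_⟩
  have h2 : volume {al : ℝ | 0 < al ∧
      ¬ Represents k (4 * k - 2 * ((k + 4) / 5)) (2 * ((k + 4) / 5)) al} = 0 := by
    refine measure_zero_of_dimH_lt (d := 1) ?_ (by simpa using h1)
    rw [NNReal.coe_one, hausdorffMeasure_real]
  rw [ae_iff]
  refine measure_mono_null ?_ h2
  intro al hal
  simp only [Set.mem_setOf_eq, Classical.not_imp] at hal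
  exact hal

end Pool.Agent.Results.MP_ee77ae_nt.OneMultiplier
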