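import Pool.Agent.MWar.Var
import Pool.Agent.MWar.Reg

/-!
One scale: a power saving for the measure of the bad `y`, averaged over the multiplier.
-/

set_option autoImplicit false

open MeasureTheory Set Filter Topology

namespace Pool.Agent.MWar

/-- algebra of the main estimate -/
theorem scale_alg {a b Q P X H L e w La1 : ℝ} (ha : 0 < a) (hb : 0 < b) (hQ : 0 < Q) (hP : 0 < P)
    (hH : 0 < H) :
    La1 * X * a * b * (w * (2 / e + 3 * (6 * H * a / P) / (2 * H)) + 4 * (6 * H * a / P) * L) /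
      (b * (H * a / (2 * (Q * P))) / (2 * H)) ^ 2 =
    16 * Q ^ 2 * La1 * (w * (2 / e) * (P * (P * X) / (a * b)) + 9 * w * (P * X / b) +
      24 * (H * (P * X) * L / b)) := by
  field_simp
  ring

theorem scale {k r t : ℕ} (hk : 2 ≤ k) (hrt : rho k ^ (r + 1) + rho k ^ t < 1) {s u e : ℝ}
    (hs : 0 < s) (hsu : s ≤ u) (he : 0 < e) (he4 : e < 1 / 2) (La : ℕ) (hLa : 2 ≤ La) :
    ∃ C X0 : ℝ, 0 ≤ C ∧ 1 ≤ X0 ∧ ∀ X : ℕ, X0 ≤ X → ∃ (A B : Finset ℕ) (W : ℝ → ℝ),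
      (∀ a ∈ A, IsSum k (r + 1) a) ∧ (∀ b ∈ B, IsSum k t b) ∧ (∀ b ∈ B, (b : ℝ) ≤ (X : ℝ) ^ k) ∧
      IntervalIntegrable W volume s u ∧ (∀ al, 0 ≤ W al) ∧
      ∫ al in s..u, W al ≤ C * (X : ℝ) ^
        ((k : ℝ) - min (k * (1 - rho k ^ (r + 1) - rho k ^ t)) (1 / 4)) ∧
      ∀ al ∈ Icc s u, (volume (badY A B e al ((2 ^ k + u) * (X : ℝ) ^ k)
        (((La : ℝ) - 1) ^ k * (X : ℝ) ^ k))).toReal ≤ W al := by
  obtain ⟨c1, M1, hc1, hc1', hM1, hblock1⟩ := block hk r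
  obtain ⟨c2, M2, hc2, hc2', hM2, hblock2⟩ := block hk t
  have hk1 : (1 : ℝ) ≤ k := by
    have : 1 ≤ k := by omega
    exact_mod_cast this
  have hk0 : (0 : ℝ) < k := by linarith
  have hLar : (2 : ℝ) ≤ La := by exact_mod_cast hLa
  have hu : 0 < u := hs.trans_le hsu
  set Q : ℝ := k * (La : ℝ) ^ (k - 1) with hQ
  have hQ0 : 0 < Q := by positivity
  set c : ℝ := min (k * (1 - rho k ^ (r + 1) - rho k ^ t)) (1 / 4) with hc
  have hcpos : 0 < c := by
    rw [hc]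
    refine lt_min (mul_pos hk0 (by linarith)) (by norm_num)
  set C : ℝ := 16 * Q ^ 2 * ((La : ℝ) - 1) * ((u - s) * (2 / e) * (2 / (c1 * c2)) +
    9 * (u - s) * (1 / c2) + 24 * (2 / c2 ^ 2 * (1 + 4 * k - Real.log c2))) with hC
  have hlogc2 : Real.log c2 ≤ 0 := Real.log_nonpos hc2.le hc2'
  refine ⟨C, max (max (2 * M1) M2) (max (e ^ 2) (Q ^ 2)), ?_, ?_, fun X hX => ?_⟩
  · rw [hC]
    have h1 : 0 ≤ (La : ℝ) - 1 := by linarith
    have h2 : 0 ≤ u - s := by linarith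
    have h3 : 0 ≤ 1 + 4 * k - Real.log c2 := by linarith
    positivity
  · exact hM2.trans ((le_max_right _ _).trans (le_max_left _ _))
  have hX1 : 2 * M1 ≤ X := ((le_max_left _ _).trans (le_max_left _ _)).trans hX
  have hX2 : M2 ≤ X := ((le_max_right _ _).trans (le_max_left _ _)).trans hX
  have hX4 : Q ^ 2 ≤ X := ((le_max_right _ _).trans (le_max_right _ _)).trans hX
  have hXr : (1 : ℝ) ≤ X := hM2.trans hX2
  have hX0 : (0 : ℝ) < X := by linarith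
  have hXn : 1 ≤ X := by exact_mod_cast hXr
  set P : ℝ := (X : ℝ) ^ (k - 1) with hP
  have hP1 : 1 ≤ P := one_le_pow₀ hXr
  have hPX : P * X = (X : ℝ) ^ k := by
    rw [hP, ← pow_succ]
    congr 1
    omega
  have hXP : (X : ℝ) ≤ P := by
    calc (X : ℝ) = (X : ℝ) ^ 1 := (pow_one _).symm
      _ ≤ (X : ℝ) ^ (k - 1) := pow_le_pow_right₀ hXr (by omega)
  obtain ⟨A', hA1, -, hA3⟩ := hblock1 (P / 2) (by linarith)
  obtain ⟨B, hB1, hB2, hB3⟩ := hblock2 ((X : ℝ) ^ k) (by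
    have : (X : ℝ) ≤ (X : ℝ) ^ k := by
      calc (X : ℝ) = (X : ℝ) ^ 1 := (pow_one _).symm
        _ ≤ (X : ℝ) ^ k := pow_le_pow_right₀ hXr (by omega)
    linarith)
  set H : ℝ := (X : ℝ) ^ ((k : ℝ) - 1 / 2) with hH
  have hHP : H = P * (X : ℝ) ^ (1 / 2 : ℝ) := by
    rw [hH, hP, ← Real.rpow_natCast, ← Real.rpow_add hX0]
    congr 1
    rw [Nat.cast_sub (by omega)]
    push_cast
    ring
  have hHk : H ≤ (X : ℝ) ^ k := by
    rw [hH, ← Real.rpow_natCast]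
    exact Real.rpow_le_rpow_of_exponent_le hXr (by linarith)
  have hXh : Q ≤ (X : ℝ) ^ (1 / 2 : ℝ) := by
    rw [← Real.sqrt_eq_rpow]
    exact Real.le_sqrt_of_sq_le hX4
  have hH0 : 0 < H := Real.rpow_pos_of_pos hX0 _
  have hQ1 : 1 ≤ Q := by
    rw [hQ]
    have : (1 : ℝ) ≤ (La : ℝ) ^ (k - 1) := one_le_pow₀ (by linarith)
    nlinarith
  have hPH : P ≤ H := by
    rw [hHP]
    nlinarith
  have hQP : (k : ℝ) * ((La : ℝ) * X) ^ (k - 1) = Q * P := by
    rw [mul_pow, hQ, hP]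
    ring
  have hQPH : Q * P ≤ H := by
    rw [hHP]
    nlinarith
  have heH : e ≤ H := by linarith
  have hA'le : ∀ a ∈ A', (a : ℝ) ≤ (X : ℝ) ^ (k - 1) / 2 := fun a ha => (hA1 a ha).2
  -- sizes
  have hr1 : 0 ≤ rho k ^ r := rho_pow_nonneg hk r
  have hr2 : rho k ^ r ≤ 1 := rho_pow_le hk r
  have ht1 : 0 ≤ rho k ^ t := rho_pow_nonneg hk t
  have ht2 : rho k ^ t ≤ 1 := rho_pow_le hk t
  have hA'card : c1 / 2 * (X : ℝ) ^ (((k : ℝ) - 1) * (1 - rho k ^ r)) ≤ A'.card := by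
    refine le_trans ?_ hA3
    have h1 : (P / 2) ^ (1 - rho k ^ r) = P ^ (1 - rho k ^ r) / 2 ^ (1 - rho k ^ r) :=
      Real.div_rpow (by linarith) (by norm_num) _
    have h2 : P ^ (1 - rho k ^ r) = (X : ℝ) ^ (((k : ℝ) - 1) * (1 - rho k ^ r)) := by
      rw [hP, ← Real.rpow_natCast, ← Real.rpow_mul hX0.le, Nat.cast_sub (by omega)]
      push_cast
      rfl
    have h3 : (2 : ℝ) ^ (1 - rho k ^ r) ≤ 2 := by
      calc (2 : ℝ) ^ (1 - rho k ^ r) ≤ (2 : ℝ) ^ (1 : ℝ) :=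
            Real.rpow_le_rpow_of_exponent_le (by norm_num) (by linarith)
        _ = 2 := Real.rpow_one _
    rw [h1, h2]
    have h4 : 0 < (2 : ℝ) ^ (1 - rho k ^ r) := Real.rpow_pos_of_pos (by norm_num) _
    have h5 : 0 ≤ (X : ℝ) ^ (((k : ℝ) - 1) * (1 - rho k ^ r)) := Real.rpow_nonneg hX0.le _
    rw [← mul_div_assoc, le_div_iff₀ h4]
    calc c1 / 2 * (X : ℝ) ^ (((k : ℝ) - 1) * (1 - rho k ^ r)) * 2 ^ (1 - rho k ^ r)
        ≤ c1 / 2 * (X : ℝ) ^ (((k : ℝ) - 1) * (1 - rho k ^ r)) * 2 := by gcongr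
      _ = c1 * (X : ℝ) ^ (((k : ℝ) - 1) * (1 - rho k ^ r)) := by ring
  have hpowk : ∀ p : ℝ, ((X : ℝ) ^ k) ^ p = (X : ℝ) ^ ((k : ℝ) * p) := by
    intro p
    rw [← Real.rpow_natCast, ← Real.rpow_mul hX0.le]
  rw [hpowk] at hB3
  have ha0 : (0 : ℝ) < A'.card := lt_of_lt_of_le (by positivity) hA'card
  have hb0 : (0 : ℝ) < B.card := lt_of_lt_of_le (by positivity) hB3
  set sg : ℝ := c2 * (X : ℝ) ^ ((k : ℝ) * rho k ^ t) with hsg
  have hsg0 : 0 < sg := by positivity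
  have hsep : ∀ b ∈ B, ∀ b' ∈ B, b < b' → sg ≤ (b' : ℝ) - b := by
    intro b hb b' hb' hlt
    have := hB2 b hb b' hb' hlt
    rwa [hpowk] at this
  set L : ℝ := 2 / sg * (1 + Real.log ⌊(X : ℝ) ^ k / sg⌋₊) with hL
  set A : Finset ℕ := regSet k X La A' with hA
  have hAcard : (A.card : ℝ) = ((La : ℝ) - 1) * X * A'.card :=
    regSet_card (by omega) hXn (by omega) hA'le
  set ka : ℝ := H * A'.card / (2 * (Q * P)) with hka
  have hka0 : 0 < ka := by positivity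
  have hden : 0 < (B.card * ka / (2 * H)) ^ 2 := by positivity
  have hcount : ∀ al ∈ Icc s u, ∀ y ∈ Icc ((2 ^ k + u) * (X : ℝ) ^ k)
      (((La : ℝ) - 1) ^ k * (X : ℝ) ^ k), ∀ b ∈ B,
      ka ≤ ((A.filter fun a : ℕ => |(a : ℝ) - (y - al * b)| < H).card : ℝ) := by
    intro al hal y hy b hb
    have hbX := (hB1 b hb).2
    have hb0' : (0 : ℝ) ≤ b := Nat.cast_nonneg _
    have h1 : al * b ≤ u * (X : ℝ) ^ k := mul_le_mul hal.2 hbX hb0' hu.le
    have h2 : 0 ≤ al * b := mul_nonneg (hs.le.trans hal.1) hb0'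
    have h3 := regSet_lower (k := k) (X := X) (La := La) (A' := A') (H := H) (by omega) hXn hLa hA'le
      (by rw [hQP]; exact hQPH) hHk (z := y - al * b)
      (by
        rw [mul_pow]
        have := hy.1
        nlinarith)
      (by
        rw [mul_pow]
        have := hy.2
        linarith)
    rw [hQP] at h3
    exact h3
  have hKup : ∀ z : ℝ, ((A.filter fun a : ℕ => |(a : ℝ) - z| ≤ 2 * H).card : ℝ) ≤
      6 * H * A'.card / P := fun z => regSet_upper (by omega) hXn hA'le hPH z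
  have hLsum : ∀ b ∈ B, ∑ b' ∈ B.erase b, 1 / |(b : ℝ) - b'| ≤ L := fun b hb =>
    sum_recip hsg0 (fun b hb => (hB1 b hb).2) hsep hb
  refine ⟨A, B, fun al => WW A B e H al / (B.card * ka / (2 * H)) ^ 2,
    fun a ha => regSet_isSum hXn (fun a ha => (hA1 a ha).1) ha, fun b hb => (hB1 b hb).1,
    fun b hb => (hB1 b hb).2, ?_, ?_, ?_, ?_⟩
  · exact (intervalIntegrable_WW he heH A B s u).div_const _
  · intro al
    exact div_nonneg (WW_nonneg he heH A B al) hden.le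
  · rw [intervalIntegral.integral_div]
    have hV := integral_WW_le (A := A) (B := B) he he4 heH hsu
      (K := 6 * H * A'.card / P) (by positivity) hKup hLsum
    rw [hAcard] at hV
    have h1 := div_le_div_of_nonneg_right hV hden.le
    refine h1.trans ?_
    have h2 := scale_alg (a := (A'.card : ℝ)) (b := (B.card : ℝ)) (Q := Q) (P := P) (X := (X : ℝ))
      (H := H) (L := L) (e := e) (w := u - s) (La1 := (La : ℝ) - 1) ha0 hb0 hQ0 (by linarith) hH0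
    rw [h2, hC]
    -- the three terms
    have hXc : 0 < (X : ℝ) ^ ((k : ℝ) - c) := Real.rpow_pos_of_pos hX0 _
    have hcle1 : c ≤ k * (1 - rho k ^ (r + 1) - rho k ^ t) := min_le_left _ _
    have hcle2 : c ≤ 1 / 4 := min_le_right _ _
    have hkrho : (k : ℝ) * rho k = k - 1 := by
      unfold rho
      field_simp
    have hT1 : P * (P * X) / (A'.card * B.card) ≤ 2 / (c1 * c2) * (X : ℝ) ^ ((k : ℝ) - c) := by
      rw [div_le_iff₀ (by positivity)]
      have h3 : c1 / 2 * (X : ℝ) ^ (((k : ℝ) - 1) * (1 - rho k ^ r)) *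
          (c2 * (X : ℝ) ^ ((k : ℝ) * (1 - rho k ^ t))) ≤ A'.card * B.card :=
        mul_le_mul hA'card hB3 (by positivity) (by positivity)
      have h4 : P * (P * X) = (X : ℝ) ^ ((2 : ℝ) * k - 1) := by
        rw [hPX, hP, ← pow_add, ← Real.rpow_natCast]
        congr 1
        rw [Nat.cast_add, Nat.cast_sub (by omega)]
        push_cast
        ring
      have h5 : (X : ℝ) ^ ((2 : ℝ) * k - 1) ≤ (X : ℝ) ^ ((k : ℝ) - c) *
          ((X : ℝ) ^ (((k : ℝ) - 1) * (1 - rho k ^ r)) *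
          (X : ℝ) ^ ((k : ℝ) * (1 - rho k ^ t))) := by
        rw [← Real.rpow_add hX0, ← Real.rpow_add hX0]
        refine Real.rpow_le_rpow_of_exponent_le hXr ?_
        have h6 : (k : ℝ) * rho k ^ (r + 1) = (k - 1) * rho k ^ r := by
          rw [pow_succ, ← hkrho]
          ring
        nlinarith
      rw [h4]
      calc (X : ℝ) ^ ((2 : ℝ) * k - 1) ≤ (X : ℝ) ^ ((k : ℝ) - c) *
          ((X : ℝ) ^ (((k : ℝ) - 1) * (1 - rho k ^ r)) *
          (X : ℝ) ^ ((k : ℝ) * (1 - rho k ^ t))) := h5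
        _ = 2 / (c1 * c2) * (X : ℝ) ^ ((k : ℝ) - c) *
          (c1 / 2 * (X : ℝ) ^ (((k : ℝ) - 1) * (1 - rho k ^ r)) *
          (c2 * (X : ℝ) ^ ((k : ℝ) * (1 - rho k ^ t)))) := by
          field_simp
        _ ≤ 2 / (c1 * c2) * (X : ℝ) ^ ((k : ℝ) - c) * (A'.card * B.card) :=
          mul_le_mul_of_nonneg_left h3 (by positivity)
    have hT2 : P * X / B.card ≤ 1 / c2 * (X : ℝ) ^ ((k : ℝ) - c) := by
      rw [div_le_iff₀ hb0, hPX]
      have h5 : (X : ℝ) ^ k ≤ (X : ℝ) ^ ((k : ℝ) - c) * (X : ℝ) ^ ((k : ℝ) * (1 - rho k ^ t)) := by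
        rw [← Real.rpow_natCast, ← Real.rpow_add hX0]
        refine Real.rpow_le_rpow_of_exponent_le hXr ?_
        have : 0 ≤ (k : ℝ) * rho k ^ (r + 1) := mul_nonneg hk0.le (rho_pow_nonneg hk _)
        nlinarith
      calc (X : ℝ) ^ k ≤ (X : ℝ) ^ ((k : ℝ) - c) * (X : ℝ) ^ ((k : ℝ) * (1 - rho k ^ t)) := h5
        _ = 1 / c2 * (X : ℝ) ^ ((k : ℝ) - c) * (c2 * (X : ℝ) ^ ((k : ℝ) * (1 - rho k ^ t))) := by
          field_simp
        _ ≤ 1 / c2 * (X : ℝ) ^ ((k : ℝ) - c) * B.card :=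
          mul_le_mul_of_nonneg_left hB3 (by positivity)
    have hT3 : H * (P * X) * L / B.card ≤
        2 / c2 ^ 2 * (1 + 4 * k - Real.log c2) * (X : ℝ) ^ ((k : ℝ) - c) := by
      have hXt : (1 : ℝ) ≤ (X : ℝ) ^ ((k : ℝ) * rho k ^ t) :=
        Real.one_le_rpow hXr (by positivity)
      have hX14 : (1 : ℝ) ≤ (X : ℝ) ^ (1 / 4 : ℝ) := Real.one_le_rpow hXr (by norm_num)
      have hlog : 1 + Real.log ⌊(X : ℝ) ^ k / sg⌋₊ ≤
          (1 + 4 * k - Real.log c2) * (X : ℝ) ^ (1 / 4 : ℝ) := by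
        have hXk : (1 : ℝ) ≤ (X : ℝ) ^ k := one_le_pow₀ hXr
        have h6 : (⌊(X : ℝ) ^ k / sg⌋₊ : ℝ) ≤ (X : ℝ) ^ k / c2 := by
          refine (Nat.floor_le (by positivity)).trans ?_
          refine div_le_div_of_nonneg_left (by positivity) hc2 ?_
          rw [hsg]
          nlinarith
        have h7 : Real.log ⌊(X : ℝ) ^ k / sg⌋₊ ≤ Real.log ((X : ℝ) ^ k / c2) := by
          rcases Nat.eq_zero_or_pos ⌊(X : ℝ) ^ k / sg⌋₊ with h | h
          · rw [h, Nat.cast_zero, Real.log_zero]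
            refine Real.log_nonneg ?_
            rw [le_div_iff₀ hc2]
            linarith
          · exact Real.log_le_log (by exact_mod_cast h) h6
        have h8 : Real.log ((X : ℝ) ^ k / c2) = k * Real.log X - Real.log c2 := by
          rw [Real.log_div (by positivity) hc2.ne', Real.log_pow]
        have h9 : Real.log X ≤ (X : ℝ) ^ (1 / 4 : ℝ) / (1 / 4) :=
          Real.log_le_rpow_div hX0.le (by norm_num)
        have h10 : Real.log X ≤ 4 * (X : ℝ) ^ (1 / 4 : ℝ) := by linarith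
        have h11 : (k : ℝ) * Real.log X ≤ k * (4 * (X : ℝ) ^ (1 / 4 : ℝ)) :=
          mul_le_mul_of_nonneg_left h10 hk0.le
        nlinarith
      rw [div_le_iff₀ hb0]
      have hLle : L ≤ 2 / sg * ((1 + 4 * k - Real.log c2) * (X : ℝ) ^ (1 / 4 : ℝ)) := by
        rw [hL]
        exact mul_le_mul_of_nonneg_left hlog (by positivity)
      have hD : 0 ≤ 1 + 4 * k - Real.log c2 := by linarith
      have h12 : H * (X : ℝ) ^ k * (X : ℝ) ^ (1 / 4 : ℝ) ≤
          (X : ℝ) ^ ((k : ℝ) * rho k ^ t) * ((X : ℝ) ^ ((k : ℝ) - c) *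
          (X : ℝ) ^ ((k : ℝ) * (1 - rho k ^ t))) := by
        rw [hH, ← Real.rpow_natCast (X : ℝ) k, ← Real.rpow_add hX0, ← Real.rpow_add hX0,
          ← Real.rpow_add hX0, ← Real.rpow_add hX0]
        refine Real.rpow_le_rpow_of_exponent_le hXr ?_
        nlinarith
      calc H * (P * X) * L ≤ H * (P * X) *
            (2 / sg * ((1 + 4 * k - Real.log c2) * (X : ℝ) ^ (1 / 4 : ℝ))) :=
            mul_le_mul_of_nonneg_left hLle (by positivity)
        _ = 2 / sg * (1 + 4 * k - Real.log c2) * (H * (X : ℝ) ^ k * (X : ℝ) ^ (1 / 4 : ℝ)) := by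
            rw [hPX]
            ring
        _ ≤ 2 / sg * (1 + 4 * k - Real.log c2) *
            ((X : ℝ) ^ ((k : ℝ) * rho k ^ t) * ((X : ℝ) ^ ((k : ℝ) - c) *
            (X : ℝ) ^ ((k : ℝ) * (1 - rho k ^ t)))) :=
            mul_le_mul_of_nonneg_left h12 (by positivity)
        _ = 2 / c2 ^ 2 * (1 + 4 * k - Real.log c2) * (X : ℝ) ^ ((k : ℝ) - c) *
            (c2 * (X : ℝ) ^ ((k : ℝ) * (1 - rho k ^ t))) := by
            rw [hsg]
            have : (X : ℝ) ^ ((k : ℝ) * rho k ^ t) ≠ 0 := by positivity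
            field_simp
        _ ≤ 2 / c2 ^ 2 * (1 + 4 * k - Real.log c2) * (X : ℝ) ^ ((k : ℝ) - c) * B.card :=
            mul_le_mul_of_nonneg_left hB3 (by positivity)
    have hw : 0 ≤ u - s := by linarith
    have hLa1 : 0 ≤ (La : ℝ) - 1 := by linarith
    rw [mul_assoc (16 * Q ^ 2 * ((La : ℝ) - 1))]
    refine mul_le_mul_of_nonneg_left ?_ (by positivity)
    have g1 := mul_le_mul_of_nonneg_left hT1 (by positivity : 0 ≤ (u - s) * (2 / e))
    have g2 := mul_le_mul_of_nonneg_left hT2 (by positivity : 0 ≤ 9 * (u - s))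
    have g3 := mul_le_mul_of_nonneg_left hT3 (by norm_num : (0 : ℝ) ≤ 24)
    calc _ ≤ (u - s) * (2 / e) * (2 / (c1 * c2) * (X : ℝ) ^ ((k : ℝ) - c)) +
        9 * (u - s) * (1 / c2 * (X : ℝ) ^ ((k : ℝ) - c)) +
        24 * (2 / c2 ^ 2 * (1 + 4 * k - Real.log c2) * (X : ℝ) ^ ((k : ℝ) - c)) :=
          add_le_add (add_le_add g1 g2) g3
      _ = _ := by ring
  · intro al hal
    rw [le_div_iff₀ hden, mul_comm]
    exact cheb he heH hka0.le (hcount al hal)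

end Pool.Agent.MWar
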