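import Mathlib

/-!
Separated sets of sums of `j` positive `k`-th powers, by the method of diminishing ranges.
-/

set_option autoImplicit false

open Finset

namespace Pool.Agent.MWar

/-- `n` is a sum of `j` positive `k`-th powers -/
def IsSum (k j n : ℕ) : Prop := ∃ x : Fin j → ℕ, (∀ i, 0 < x i) ∧ ∑ i, x i ^ k = n

/-- `1 - 1 / k` -/
noncomputable def rho (k : ℕ) : ℝ := 1 - 1 / k

theorem isSum_zero (k : ℕ) : IsSum k 0 0 := ⟨fun _ => 1, fun _ => one_pos, by simp⟩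

theorem IsSum.cons {k j n x : ℕ} (hx : 0 < x) (h : IsSum k j n) : IsSum k (j + 1) (x ^ k + n) := by
  obtain ⟨f, hf, hs⟩ := h
  refine ⟨Fin.cons x f, fun i => ?_, ?_⟩
  · refine Fin.cases ?_ (fun i => ?_) i
    · simpa using hx
    · simpa using hf i
  · rw [Fin.sum_univ_succ]
    simp [hs]

theorem IsSum.add {k i j m n : ℕ} (h : IsSum k i m) (h' : IsSum k j n) :
    IsSum k (i + j) (m + n) := by
  obtain ⟨f, hf, hs⟩ := h
  obtain ⟨g, hg, ht⟩ := h'
  refine ⟨Fin.append f g, fun l => ?_, ?_⟩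
  · refine Fin.addCases (fun l => ?_) (fun l => ?_) l
    · simpa using hf l
    · simpa using hg l
  · rw [Fin.sum_univ_add]
    simp [hs, ht]

theorem rho_nonneg {k : ℕ} (hk : 2 ≤ k) : 0 ≤ rho k := by
  unfold rho
  have h : (2 : ℝ) ≤ k := by exact_mod_cast hk
  have : 1 / (k : ℝ) ≤ 1 := by
    rw [div_le_one (by linarith)]
    linarith
  linarith

theorem rho_half {k : ℕ} (hk : 2 ≤ k) : 1 / 2 ≤ rho k := by
  unfold rho
  have h : (2 : ℝ) ≤ k := by exact_mod_cast hk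
  have : 1 / (k : ℝ) ≤ 1 / 2 := one_div_le_one_div_of_le (by norm_num) h
  linarith

theorem rho_lt_one {k : ℕ} (hk : 2 ≤ k) : rho k < 1 := by
  unfold rho
  have h : (2 : ℝ) ≤ k := by exact_mod_cast hk
  have : 0 < 1 / (k : ℝ) := by positivity
  linarith

theorem rho_pow_le {k : ℕ} (hk : 2 ≤ k) (j : ℕ) : rho k ^ j ≤ 1 :=
  pow_le_one₀ (rho_nonneg hk) (rho_lt_one hk).le

theorem rho_pow_nonneg {k : ℕ} (hk : 2 ≤ k) (j : ℕ) : 0 ≤ rho k ^ j :=
  pow_nonneg (rho_nonneg hk) j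

/-- consecutive powers are far apart -/
theorem pow_gap {k x y X : ℕ} (hk : 1 ≤ k) (hX : X ≤ x) (hxy : x < y) :
    x ^ k + X ^ (k - 1) ≤ y ^ k := by
  obtain ⟨m, rfl⟩ : ∃ m, k = m + 1 := ⟨k - 1, by omega⟩
  have h1 : (x + 1) ^ (m + 1) ≤ y ^ (m + 1) := Nat.pow_le_pow_left hxy _
  have h2 : X ^ m ≤ x ^ m := Nat.pow_le_pow_left hX _
  have h3 : x ^ m ≤ (x + 1) ^ m := Nat.pow_le_pow_left (Nat.le_succ x) _
  have h4 : (x + 1) ^ (m + 1) = (x + 1) ^ m * x + (x + 1) ^ m := by ring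
  have h5 : x ^ (m + 1) = x ^ m * x := by ring
  have h6 : x ^ m * x ≤ (x + 1) ^ m * x := Nat.mul_le_mul_right _ h3
  simp only [Nat.add_sub_cancel]
  omega

/-- consecutive powers are not too far apart -/
theorem pow_gap_le (k x : ℕ) : (x + 1) ^ k ≤ x ^ k + k * (x + 1) ^ (k - 1) := by
  induction k with
  | zero => simp
  | succ k ih =>
    rcases Nat.eq_zero_or_pos k with h | h
    · subst h
      simp
    · obtain ⟨m, rfl⟩ : ∃ m, k = m + 1 := ⟨k - 1, by omega⟩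
      simp only [Nat.add_sub_cancel] at ih ⊢
      have h3 : x ^ (m + 1) ≤ (x + 1) ^ (m + 1) := Nat.pow_le_pow_left (Nat.le_succ x) _
      have h7 : (x + 1) * (x + 1) ^ (m + 1) ≤
          (x + 1) * (x ^ (m + 1) + (m + 1) * (x + 1) ^ m) := Nat.mul_le_mul_left _ ih
      calc (x + 1) ^ (m + 1 + 1) = (x + 1) * (x + 1) ^ (m + 1) := by ring
        _ ≤ (x + 1) * (x ^ (m + 1) + (m + 1) * (x + 1) ^ m) := h7
        _ = x ^ (m + 1 + 1) + x ^ (m + 1) + (m + 1) * (x + 1) ^ (m + 1) := by ring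
        _ ≤ x ^ (m + 1 + 1) + (x + 1) ^ (m + 1) + (m + 1) * (x + 1) ^ (m + 1) := by omega
        _ = x ^ (m + 1 + 1) + (m + 1 + 1) * (x + 1) ^ (m + 1) := by ring

/-- the pieces `x ^ k + b` with small `b` are ordered by `x` -/
theorem piece_gap {k X x y b b' : ℕ} (hk : 1 ≤ k) (hX : X ≤ x) (hxy : x < y)
    (hb : (b : ℝ) ≤ (X : ℝ) ^ (k - 1) / 2) :
    (X : ℝ) ^ (k - 1) / 2 ≤ ((y ^ k + b' : ℕ) : ℝ) - ((x ^ k + b : ℕ) : ℝ) := by
  have h := pow_gap hk hX hxy
  have h' : ((x : ℝ)) ^ k + (X : ℝ) ^ (k - 1) ≤ (y : ℝ) ^ k := by exact_mod_cast h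
  push_cast
  have : (0 : ℝ) ≤ b' := Nat.cast_nonneg _
  linarith

theorem block_scale {k : ℕ} (hk : 2 ≤ k) {M : ℝ} (hM : (2 : ℝ) ^ (k + 1) ≤ M) :
    ∃ X : ℕ, 1 ≤ X ∧ (2 * (X : ℝ)) ^ k ≤ M / 2 ∧ M ^ (1 / (k : ℝ)) / 2 ^ (k + 2) ≤ X ∧
      M ^ rho k / 2 ^ (2 * k + 1) ≤ (X : ℝ) ^ (k - 1) / 2 := by
  have hk0 : (0 : ℝ) < k := by
    have : 0 < k := by omega
    exact_mod_cast this
  have h2 : (0 : ℝ) < 2 ^ (k + 1) := by positivity
  have hM0 : 0 < M := h2.trans_le hM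
  set s : ℝ := (M / 2 ^ (k + 1)) ^ (1 / (k : ℝ)) with hs
  have hd1 : 1 ≤ M / 2 ^ (k + 1) := by
    rw [le_div_iff₀ h2]
    linarith
  have hs1 : 1 ≤ s := Real.one_le_rpow hd1 (by positivity)
  have hsk : s ^ k = M / 2 ^ (k + 1) := by
    rw [hs, ← Real.rpow_natCast, ← Real.rpow_mul (by positivity), one_div,
      inv_mul_cancel₀ hk0.ne', Real.rpow_one]
  have hX0 : 1 ≤ ⌊s⌋₊ := by
    rw [Nat.le_floor_iff (by linarith)]
    simpa using hs1
  have hXs : (⌊s⌋₊ : ℝ) ≤ s := Nat.floor_le (by linarith)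
  have hXs2 : s / 2 ≤ (⌊s⌋₊ : ℝ) := by
    have h3 : s < ⌊s⌋₊ + 1 := Nat.lt_floor_add_one s
    have h4 : (1 : ℝ) ≤ ⌊s⌋₊ := by exact_mod_cast hX0
    linarith
  have hpow1 : ((2 : ℝ) ^ (k + 1)) ^ (1 / (k : ℝ)) ≤ 2 ^ (k + 1) := by
    have : ((2 : ℝ) ^ (k + 1)) ^ (1 / (k : ℝ)) ≤ ((2 : ℝ) ^ (k + 1)) ^ (1 : ℝ) := by
      refine Real.rpow_le_rpow_of_exponent_le (one_le_pow₀ (by norm_num)) ?_
      rw [div_le_one hk0]
      have : (2 : ℝ) ≤ k := by exact_mod_cast hk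
      linarith
    rwa [Real.rpow_one] at this
  have hpow2 : ((2 : ℝ) ^ (k + 1)) ^ (rho k) ≤ 2 ^ (k + 1) := by
    have : ((2 : ℝ) ^ (k + 1)) ^ (rho k) ≤ ((2 : ℝ) ^ (k + 1)) ^ (1 : ℝ) :=
      Real.rpow_le_rpow_of_exponent_le (one_le_pow₀ (by norm_num)) (rho_lt_one hk).le
    rwa [Real.rpow_one] at this
  refine ⟨⌊s⌋₊, hX0, ?_, ?_, ?_⟩
  · rw [mul_pow]
    have h5 : (⌊s⌋₊ : ℝ) ^ k ≤ s ^ k := pow_le_pow_left₀ (Nat.cast_nonneg _) hXs k
    rw [hsk] at h5
    have h6 : (2 : ℝ) ^ k * (⌊s⌋₊ : ℝ) ^ k ≤ 2 ^ k * (M / 2 ^ (k + 1)) :=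
      mul_le_mul_of_nonneg_left h5 (by positivity)
    refine h6.trans (le_of_eq ?_)
    rw [pow_succ]
    field_simp
  · refine le_trans ?_ hXs2
    rw [hs, Real.div_rpow hM0.le h2.le]
    rw [div_le_iff₀ (by positivity)]
    have h7 : 0 < ((2 : ℝ) ^ (k + 1)) ^ (1 / (k : ℝ)) := Real.rpow_pos_of_pos h2 _
    rw [div_div, div_mul_eq_mul_div, le_div_iff₀ (by positivity)]
    have h8 : 0 ≤ M ^ (1 / (k : ℝ)) := Real.rpow_nonneg hM0.le _
    have h9 : (2 : ℝ) ^ (k + 2) = 2 ^ (k + 1) * 2 := by ring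
    rw [h9]
    have h10 := mul_le_mul_of_nonneg_left hpow1 h8
    nlinarith
  · have h11 : s ^ (k - 1) = (M / 2 ^ (k + 1)) ^ (rho k) := by
      rw [hs, ← Real.rpow_natCast, ← Real.rpow_mul (by positivity)]
      congr 1
      unfold rho
      rw [Nat.cast_sub (by omega)]
      field_simp
      push_cast
      ring
    have h12 : (s / 2) ^ (k - 1) ≤ (⌊s⌋₊ : ℝ) ^ (k - 1) :=
      pow_le_pow_left₀ (by positivity) hXs2 _
    have h13 : (s / 2) ^ (k - 1) = s ^ (k - 1) / 2 ^ (k - 1) := div_pow _ _ _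
    rw [h13, h11, Real.div_rpow hM0.le h2.le] at h12
    have h14 : M ^ rho k / 2 ^ (2 * k + 1) ≤
        M ^ rho k / (2 ^ (k + 1)) ^ rho k / 2 ^ (k - 1) / 2 := by
      rw [div_div, div_div]
      apply div_le_div_of_nonneg_left (Real.rpow_nonneg hM0.le _) (by positivity)
      calc ((2 : ℝ) ^ (k + 1)) ^ rho k * (2 ^ (k - 1) * 2)
          ≤ 2 ^ (k + 1) * (2 ^ (k - 1) * 2) := by gcongr
        _ = 2 ^ (2 * k + 1) := by
          rw [← pow_succ, ← pow_add]
          congr 1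
          omega
    refine h14.trans ?_
    linarith

theorem block {k : ℕ} (hk : 2 ≤ k) (j : ℕ) : ∃ c M0 : ℝ, 0 < c ∧ c ≤ 1 ∧ 1 ≤ M0 ∧
    ∀ M : ℝ, M0 ≤ M → ∃ B : Finset ℕ, (∀ b ∈ B, IsSum k j b ∧ (b : ℝ) ≤ M) ∧
      (∀ b ∈ B, ∀ b' ∈ B, b < b' → c * M ^ (rho k ^ j) ≤ (b' : ℝ) - b) ∧
      c * M ^ (1 - rho k ^ j) ≤ B.card := by
  induction j with
  | zero =>
    refine ⟨1, 1, one_pos, le_rfl, le_rfl, fun M hM => ⟨{0}, ?_, ?_, ?_⟩⟩
    · intro b hb
      rw [mem_singleton] at hb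
      subst hb
      exact ⟨isSum_zero k, by simpa using le_trans zero_le_one hM⟩
    · intro b hb b' hb' hlt
      rw [mem_singleton] at hb hb'
      omega
    · simp
  | succ j ih =>
    obtain ⟨c, M0, hc, hc1, hM0, h⟩ := ih
    set c1 : ℝ := 1 / 2 ^ (2 * k + 1) with hc1def
    have hc1pos : 0 < c1 := by positivity
    have hc1le : c1 ≤ 1 := by
      rw [hc1def, div_le_one (by positivity)]
      exact one_le_pow₀ (by norm_num)
    refine ⟨c * c1 / 2 ^ (k + 2), max ((2 : ℝ) ^ (k + 1)) ((M0 / c1) ^ 2), by positivity, ?_, ?_,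
      fun M hM => ?_⟩
    · rw [div_le_one (by positivity)]
      have h1 : (1 : ℝ) ≤ 2 ^ (k + 2) := one_le_pow₀ (by norm_num)
      nlinarith
    · exact (one_le_pow₀ (by norm_num)).trans (le_max_left _ _)
    have hM1 : (2 : ℝ) ^ (k + 1) ≤ M := (le_max_left _ _).trans hM
    have hM2 : (M0 / c1) ^ 2 ≤ M := (le_max_right _ _).trans hM
    have hM1' : (1 : ℝ) ≤ M := (one_le_pow₀ (by norm_num)).trans hM1
    have hMpos : 0 < M := by linarith
    obtain ⟨X, hX1, hX2, hX3, hX4⟩ := block_scale hk hM1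
    set M' : ℝ := (X : ℝ) ^ (k - 1) / 2 with hM'
    have hM'c : c1 * M ^ rho k ≤ M' := by
      refine le_trans (le_of_eq ?_) hX4
      rw [hc1def]
      ring
    have hMM' : M0 ≤ M' := by
      refine le_trans ?_ hM'c
      have h2 : M ^ (1 / 2 : ℝ) ≤ M ^ rho k :=
        Real.rpow_le_rpow_of_exponent_le hM1' (rho_half hk)
      have h3 : M0 / c1 ≤ M ^ (1 / 2 : ℝ) := by
        rw [← Real.sqrt_eq_rpow]
        exact Real.le_sqrt_of_sq_le hM2
      rw [div_le_iff₀ hc1pos] at h3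
      nlinarith
    obtain ⟨B, hB1, hB2, hB3⟩ := h M' hMM'
    have hM'pos : 1 ≤ M' := hM0.trans hMM'
    set f : ℕ × ℕ → ℕ := fun q => q.1 ^ k + q.2 with hf
    have hkey : ∀ q ∈ (Finset.Ico X (2 * X)) ×ˢ B, ∀ q' ∈ (Finset.Ico X (2 * X)) ×ˢ B,
        q.1 < q'.1 → M' ≤ (f q' : ℝ) - f q := by
      intro q hq q' hq' hlt
      rw [mem_product, mem_Ico] at hq hq'
      exact piece_gap (by omega) hq.1.1 hlt (hB1 _ hq.2).2
    have hinj : Set.InjOn f ((Finset.Ico X (2 * X)) ×ˢ B : Finset (ℕ × ℕ)) := by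
      intro q hq q' hq' heq
      rw [mem_coe] at hq hq'
      rcases lt_trichotomy q.1 q'.1 with h1 | h1 | h1
      · have := hkey q hq q' hq' h1
        rw [heq, sub_self] at this
        linarith
      · ext
        · exact h1
        · simp only [hf] at heq
          rw [h1] at heq
          omega
      · have := hkey q' hq' q hq h1
        rw [heq, sub_self] at this
        linarith
    refine ⟨((Finset.Ico X (2 * X)) ×ˢ B).image f, ?_, ?_, ?_⟩
    · intro b hb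
      obtain ⟨q, hq, rfl⟩ := mem_image.1 hb
      rw [mem_product, mem_Ico] at hq
      refine ⟨?_, ?_⟩
      · have : 0 < q.1 := by omega
        exact (hB1 _ hq.2).1.cons this
      · simp only [hf]
        push_cast
        have h5 : (q.1 : ℝ) ≤ 2 * X := by
          have : q.1 ≤ 2 * X := by omega
          exact_mod_cast this
        have h6 : (q.1 : ℝ) ^ k ≤ (2 * X) ^ k := pow_le_pow_left₀ (Nat.cast_nonneg _) h5 k
        have h7 := (hB1 _ hq.2).2
        have h8 : M' ≤ M / 2 := by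
          refine le_trans ?_ hX2
          rw [hM']
          have h9 : (X : ℝ) ^ (k - 1) ≤ (X : ℝ) ^ k :=
            pow_le_pow_right₀ (by exact_mod_cast hX1) (by omega)
          have h10 : (X : ℝ) ^ k ≤ (2 * X) ^ k := by
            refine pow_le_pow_left₀ (Nat.cast_nonneg _) ?_ k
            have : (0 : ℝ) ≤ X := Nat.cast_nonneg _
            linarith
          have h11 : (0 : ℝ) ≤ (X : ℝ) ^ (k - 1) := by positivity
          linarith
        linarith
    · intro b hb b' hb' hlt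
      obtain ⟨q, hq, rfl⟩ := mem_image.1 hb
      obtain ⟨q', hq', rfl⟩ := mem_image.1 hb'
      have hp1 : 0 ≤ rho k ^ j := rho_pow_nonneg hk j
      have hp2 : rho k ^ j ≤ 1 := rho_pow_le hk j
      have hsep : c1 * M ^ (rho k ^ (j + 1)) ≤ M' ^ (rho k ^ j) := by
        have h12 : (c1 * M ^ rho k) ^ (rho k ^ j) ≤ M' ^ (rho k ^ j) :=
          Real.rpow_le_rpow (by positivity) hM'c hp1
        refine le_trans ?_ h12
        rw [Real.mul_rpow hc1pos.le (by positivity), ← Real.rpow_mul hMpos.le]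
        have h13 : rho k * rho k ^ j = rho k ^ (j + 1) := by ring
        rw [h13]
        refine mul_le_mul_of_nonneg_right ?_ (by positivity)
        calc c1 = c1 ^ (1 : ℝ) := (Real.rpow_one _).symm
          _ ≤ c1 ^ (rho k ^ j) := Real.rpow_le_rpow_of_exponent_ge hc1pos hc1le hp2
      have hsmall : c * c1 / 2 ^ (k + 2) * M ^ (rho k ^ (j + 1)) ≤ c * M' ^ (rho k ^ j) := by
        have h14 : c * c1 / 2 ^ (k + 2) ≤ c * c1 :=
          div_le_self (by positivity) (one_le_pow₀ (by norm_num))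
        calc c * c1 / 2 ^ (k + 2) * M ^ (rho k ^ (j + 1))
            ≤ c * c1 * M ^ (rho k ^ (j + 1)) := by gcongr
          _ = c * (c1 * M ^ (rho k ^ (j + 1))) := by ring
          _ ≤ c * M' ^ (rho k ^ j) := by gcongr
      rcases lt_trichotomy q.1 q'.1 with h1 | h1 | h1
      · have h15 := hkey q hq q' hq' h1
        have h16 : M' ^ (rho k ^ j) ≤ M' := by
          calc M' ^ (rho k ^ j) ≤ M' ^ (1 : ℝ) := Real.rpow_le_rpow_of_exponent_le hM'pos hp2
            _ = M' := Real.rpow_one _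
        have h17 : c * M' ^ (rho k ^ j) ≤ 1 * M' ^ (rho k ^ j) := by gcongr
        linarith
      · rw [mem_product, mem_Ico] at hq hq'
        have h18 : q.2 < q'.2 := by
          simp only [hf] at hlt
          rw [h1] at hlt
          omega
        have h19 := hB2 _ hq.2 _ hq'.2 h18
        simp only [hf]
        push_cast
        rw [h1]
        linarith
      · have h20 := hkey q' hq' q hq h1
        have h21 : (f q : ℝ) < f q' := by exact_mod_cast hlt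
        linarith
    · rw [card_image_of_injOn hinj, card_product, Nat.card_Ico]
      have h22 : 2 * X - X = X := by omega
      rw [h22]
      push_cast
      have hq1 : 0 ≤ 1 - rho k ^ j := by linarith [rho_pow_le hk j]
      have hq2 : 1 - rho k ^ j ≤ 1 := by linarith [rho_pow_nonneg hk j]
      have h23 : c1 * M ^ (rho k * (1 - rho k ^ j)) ≤ M' ^ (1 - rho k ^ j) := by
        have h12 : (c1 * M ^ rho k) ^ (1 - rho k ^ j) ≤ M' ^ (1 - rho k ^ j) :=
          Real.rpow_le_rpow (by positivity) hM'c hq1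
        refine le_trans ?_ h12
        rw [Real.mul_rpow hc1pos.le (by positivity), ← Real.rpow_mul hMpos.le]
        refine mul_le_mul_of_nonneg_right ?_ (by positivity)
        calc c1 = c1 ^ (1 : ℝ) := (Real.rpow_one _).symm
          _ ≤ c1 ^ (1 - rho k ^ j) := Real.rpow_le_rpow_of_exponent_ge hc1pos hc1le hq2
      have h24 : M ^ (1 - rho k ^ (j + 1)) =
          M ^ (1 / (k : ℝ)) * M ^ (rho k * (1 - rho k ^ j)) := by
        rw [← Real.rpow_add hMpos]
        congr 1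
        unfold rho
        ring
      rw [h24]
      calc c * c1 / 2 ^ (k + 2) * (M ^ (1 / (k : ℝ)) * M ^ (rho k * (1 - rho k ^ j)))
          = (M ^ (1 / (k : ℝ)) / 2 ^ (k + 2)) * (c * (c1 * M ^ (rho k * (1 - rho k ^ j)))) := by
            ring
        _ ≤ X * (c * M' ^ (1 - rho k ^ j)) := by gcongr
        _ ≤ X * B.card := by gcongr

end Pool.Agent.MWar
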